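import Pool.Agent.K9h16.ET.Sca

/-!
The endomorphisms which commute with an open subgroup are scalars: the end of the algebra.
-/

set_option autoImplicit false
set_option linter.all false

open scoped Classical

namespace Pool.Agent.K9h16.ET

open Pool.Agent.K9h16.PT Pool.Agent.K9h16.QT Pool.Agent.K9h16.MT

section main

variable {G V V' Ω : Type} [Group G] [AddCommGroup V] [AddCommGroup V'] {S : Sys G V V' Ω}
  (h : Ok S) (h' : Ok S.swap)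

/-- The additive functions which commute with the fourth powers modulo eight. -/
structure Cs {G V V' Ω : Type} [Group G] [AddCommGroup V] [AddCommGroup V'] (S : Sys G V V' Ω)
    (f : V → V) : Prop where
  add : ∀ x y, f (x + y) = f x + f y
  com : ∀ τ, (∀ v, ∃ z, S.ρ (τ * τ) v - v = (2 : ℤ) • z) →
    (∀ v', ∃ z, S.ρ' (τ * τ) v' - v' = (2 : ℤ) • z) →
    ∀ v, ∃ w, f (S.ρ (τ * τ * (τ * τ)) v) - S.ρ (τ * τ * (τ * τ)) (f v) = (8 : ℤ) • w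

include h in
theorem Cs.cw {f : V → V} (hf : Cs S f) : Cw S f := by
  refine ⟨hf.add, fun τ h1 h2 v => ?_⟩
  obtain ⟨w, hw⟩ := hf.com τ h1 h2 v
  refine ⟨S.p w, ?_⟩
  rw [hw, h.qp, smul_smul]
  norm_num

theorem Cs.sub {f g : V → V} (hf : Cs S f) (hg : Cs S g) : Cs S (fun v => f v - g v) := by
  refine ⟨fun x y => ?_, fun τ h1 h2 v => ?_⟩
  · show f (x + y) - g (x + y) = _
    rw [hf.add, hg.add]
    abel
  · obtain ⟨w, hw⟩ := hf.com τ h1 h2 v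
    obtain ⟨w', hw'⟩ := hg.com τ h1 h2 v
    refine ⟨w - w', ?_⟩
    rw [smul_sub, ← hw, ← hw', map_sub]
    abel

theorem Cs.id : Cs S (fun v => v) :=
  ⟨fun _ _ => rfl, fun τ _ _ v => ⟨0, by rw [sub_self, smul_zero]⟩⟩

include h h' in
/-- The conjugates. -/
theorem Cs.conj {f : V → V} (hf : Cs S f) (g : G) : Cs S (fun v => S.ρ g (f (S.ρ g⁻¹ v))) := by
  have inv1 : ∀ y, S.ρ g (S.ρ g⁻¹ y) = y := fun y => by rw [← h.mul, mul_inv_cancel, h.one]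
  have inv2 : ∀ y, S.ρ g⁻¹ (S.ρ g y) = y := fun y => by rw [← h.mul, inv_mul_cancel, h.one]
  have mul' : ∀ g g' v, S.ρ' (g * g') v = S.ρ' g (S.ρ' g' v) := h'.mul
  have one' : ∀ v, S.ρ' 1 v = v := h'.one
  have inv2' : ∀ y, S.ρ' g⁻¹ (S.ρ' g y) = y := fun y => by rw [← mul', inv_mul_cancel, one']
  refine ⟨fun x y => ?_, fun τ h1 h2 v => ?_⟩
  · show S.ρ g (f (S.ρ g⁻¹ (x + y))) = _
    rw [map_add, hf.add, map_add]
  · obtain ⟨σ, hσ⟩ : ∃ σ, σ = g⁻¹ * τ * g := ⟨_, rfl⟩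
    have eσ : σ * σ = g⁻¹ * ((τ * τ) * g) := by rw [hσ]; group
    have eσ4 : σ * σ * (σ * σ) * g⁻¹ = g⁻¹ * (τ * τ * (τ * τ)) := by rw [hσ]; group
    obtain ⟨w, hw⟩ := hf.com σ (fun v => by
      obtain ⟨z, hz⟩ := h1 (S.ρ g v)
      refine ⟨S.ρ g⁻¹ z, ?_⟩
      rw [eσ, h.mul, h.mul, ← map_zsmul, ← hz, map_sub, inv2]) (fun v' => by
      obtain ⟨z, hz⟩ := h2 (S.ρ' g v')
      refine ⟨S.ρ' g⁻¹ z, ?_⟩
      rw [eσ, mul', mul', ← map_zsmul, ← hz, map_sub, inv2']) (S.ρ g⁻¹ v)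
    refine ⟨S.ρ g w, ?_⟩
    show S.ρ g (f (S.ρ g⁻¹ (S.ρ (τ * τ * (τ * τ)) v))) -
      S.ρ (τ * τ * (τ * τ)) (S.ρ g (f (S.ρ g⁻¹ v))) = (8 : ℤ) • S.ρ g w
    have m1 : S.ρ g⁻¹ (S.ρ (τ * τ * (τ * τ)) v) = S.ρ (σ * σ * (σ * σ)) (S.ρ g⁻¹ v) := by
      rw [← h.mul, ← h.mul, eσ4]
    have m2 : ∀ y, S.ρ (τ * τ * (τ * τ)) (S.ρ g y) = S.ρ g (S.ρ (σ * σ * (σ * σ)) y) := by
      intro y
      rw [← h.mul, ← h.mul]
      congr 2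
      rw [hσ]
      group
    rw [← map_zsmul, ← hw, map_sub, m1, m2]

include h' in
theorem q_inj {x y : V'} (e : S.q x = S.q y) : x = y := by
  have pq : ∀ v', S.p (S.q v') = (2 : ℤ) • v' := h'.qp
  apply eq_of_sub_eq_zero
  apply h'.htf
  rw [smul_sub, ← pq, ← pq, e, sub_self]

include h h' in
/-- The endomorphism of the other group. -/
theorem dualE {f : V → V} (hf : Cs S f) : ∃ f' : V' → V', Cw S.swap f' ∧
    ∀ x', S.q (f' x') = f (S.q x') := by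
  have h1 : ∀ x', ∃ y', S.q y' = f (S.q x') := fun x' =>
    h.ker _ (claim1 h h' (hf.cw h) x')
  choose f' hf' using h1
  refine ⟨f', ⟨fun x y => ?_, fun τ k1 k2 v' => ?_⟩, hf'⟩
  · apply q_inj h'
    rw [map_add, hf', hf', hf', map_add, hf.add]
  · obtain ⟨w, hw⟩ := hf.com τ k2 k1 (S.q v')
    refine ⟨w, ?_⟩
    show f' (S.ρ' (τ * τ * (τ * τ)) v') - S.ρ' (τ * τ * (τ * τ)) (f' v') = (4 : ℤ) • S.p w
    apply q_inj h'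
    rw [map_sub, hf', h.qe, h.qe, hf', hw, map_zsmul, h.qp, smul_smul]
    norm_num

include h h' in
/-- An endomorphism with both scalars zero is divisible by two. -/
theorem claim4 {f : V → V} (hf : Cs S f) {f' : V' → V'}
    (hff : ∀ x', S.q (f' x') = f (S.q x'))
    (h0 : ∀ v, ∀ x ∈ S.Rb, ∀ y ∈ S.Rb, S.δ (f v) x y = 0)
    (h0' : ∀ v', ∀ x ∈ S.Rd, ∀ y ∈ S.Rd, S.δ' (f' v') x y = 0) (v : V) :
    ∃ w, f v = (2 : ℤ) • w := by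
  obtain ⟨g, hg⟩ := h.ker (f v) (h0 v)
  suffices hs : ∀ x ∈ S.Rd, ∀ y ∈ S.Rd, S.δ' g x y = 0 by
    obtain ⟨w, hw⟩ := h'.ker g hs
    exact ⟨w, by rw [← hg, ← h.qp]; exact congrArg _ hw.symm⟩
  intro β3 hβ3 β4 hβ4
  have five' : ∀ x1 x2 x3 x4 x5 : Ω, ∃ x ∈ S.Rd, x ≠ x1 ∧ x ≠ x2 ∧ x ≠ x3 ∧ x ≠ x4 ∧ x ≠ x5 :=
    fun x1 x2 x3 x4 x5 => h'.five
  by_cases n34 : β3 = β4
  · subst n34
    exact h'.dxx _ hβ3
  obtain ⟨β1, hβ1, n13, n14, -⟩ := five' β3 β4 β4 β4 β4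
  obtain ⟨β2, hβ2, n21, n23, n24, -⟩ := five' β1 β3 β4 β4 β4
  obtain ⟨β5, hβ5, n51, n52, n53, n54, -⟩ := five' β1 β2 β3 β4 β4
  obtain ⟨τ, t1, t2, t3, t4⟩ := fourth (S := S.swap) h' h hβ1 hβ2 hβ3 hβ4 n21.symm n34 n13 n14
    n23 n24
  obtain ⟨t, ht⟩ := t4 v
  obtain ⟨s, hs, hs'⟩ := t3 g
  have ht' : S.ρ (τ * τ * (τ * τ)) v - v = (4 : ℤ) • S.q t := ht
  have hs2 : S.ρ' (τ * τ * (τ * τ)) g - g = (4 : ℤ) • s := hs
  have e2 : S.ρ (τ * τ * (τ * τ)) (f v) - f v = (4 : ℤ) • S.q s := by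
    rw [← hg, ← h.qe, ← map_sub, hs2, map_zsmul]
  obtain ⟨w8, hw8⟩ := hf.com τ t2 t1 v
  have e3 : f (S.q t) - S.q s = (2 : ℤ) • w8 := by
    apply h.htf4
    have e8 : (4 : ℤ) • (2 : ℤ) • w8 = (8 : ℤ) • w8 := by
      rw [smul_smul]
      norm_num
    rw [e8, ← hw8, smul_sub, ← e2, ← (hf.cw h).smul]
    have e9 : S.ρ (τ * τ * (τ * τ)) v = v + (4 : ℤ) • S.q t := by rw [← ht']; abel
    rw [e9, hf.add]
    abel
  obtain ⟨r, hr⟩ := h'.ker (f' t) (h0' t)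
  have hr' : S.p r = f' t := hr
  have e4 : s = S.p (r - w8) := by
    apply q_inj h'
    rw [map_sub, map_sub, hr', hff, h.qp, ← e3]
    abel
  have e5 := hs' β1 hβ1 β5 hβ5
  have e6 : S.δ' s β1 β5 = S.δ' g β3 β4 * pr β1 β2 β1 β5 + S.δ' g β1 β2 * pr β3 β4 β1 β5 := e5
  have e7 : S.δ' (S.p (r - w8)) β1 β5 = 0 := h'.im _ β1 hβ1 β5 hβ5
  rw [e4, e7, pr_left n21.symm n51 n52, pr_out n13 n14 n53 n54, mul_one, mul_zero, add_zero] at e6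
  exact e6.symm

include h h' in
/-- The scalars on the two sides are the same. -/
theorem claim3 {f : V → V} (hf : Cs S f) {f' : V' → V'}
    (hff : ∀ x', S.q (f' x') = f (S.q x')) {ε ε' : ZMod 2}
    (h0 : ∀ v, ∀ x ∈ S.Rb, ∀ y ∈ S.Rb, S.δ (f v) x y = ε * S.δ v x y)
    (h0' : ∀ v', ∀ x ∈ S.Rd, ∀ y ∈ S.Rd, S.δ' (f' v') x y = ε' * S.δ' v' x y)
    {v0 : V} {x0 y0 : Ω} (hx0 : x0 ∈ S.Rb) (hy0 : y0 ∈ S.Rb) (hd : S.δ v0 x0 y0 = 1) :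
    ε = ε' := by
  have hxy0 : x0 ≠ y0 := by
    rintro rfl
    rw [h.dxx _ hx0] at hd
    exact zero_ne_one hd
  have five' : ∀ x1 x2 x3 x4 x5 : Ω, ∃ x ∈ S.Rd, x ≠ x1 ∧ x ≠ x2 ∧ x ≠ x3 ∧ x ≠ x4 ∧ x ≠ x5 :=
    fun x1 x2 x3 x4 x5 => h'.five
  obtain ⟨e1, he1, -⟩ := five' x0 x0 x0 x0 x0
  obtain ⟨e2, he2, m21, -⟩ := five' e1 e1 e1 e1 e1
  obtain ⟨e3, he3, m31, m32, -⟩ := five' e1 e2 e2 e2 e2
  obtain ⟨τ, fwd, bwd⟩ := h.tyS x0 hx0 y0 hy0 e1 he1 e2 he2 hxy0 m21.symm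
  have hρ : ∀ y, ∀ x ∈ S.Rb, ∀ z ∈ S.Rb, S.δ (S.ρ τ y) x z = S.δ y x z := by
    intro y x hx z hz
    obtain ⟨v', k1, -⟩ := fwd y
    have e : S.ρ τ y = y + S.q v' := by rw [← k1]; abel
    rw [e, h.add _ _ x hx z hz, h.im _ x hx z hz, add_zero]
  have hρ' : ∀ y, ∀ x ∈ S.Rd, ∀ z ∈ S.Rd, S.δ' (S.ρ' τ y) x z = S.δ' y x z := by
    intro y x hx z hz
    obtain ⟨v, k1⟩ := bwd y
    have e : S.ρ' τ y = y + S.p v := by rw [← k1]; abel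
    have a1 : S.δ' (y + S.p v) x z = S.δ' y x z + S.δ' (S.p v) x z := h'.add _ _ x hx z hz
    have a2 : S.δ' (S.p v) x z = 0 := h'.im _ x hx z hz
    rw [e, a1, a2, add_zero]
  have inv1 : ∀ y, S.ρ τ (S.ρ τ⁻¹ y) = y := fun y => by rw [← h.mul, mul_inv_cancel, h.one]
  have inv1' : ∀ y, S.ρ' τ (S.ρ' τ⁻¹ y) = y := fun y => by
    have a1 : S.ρ' (τ * τ⁻¹) y = S.ρ' τ (S.ρ' τ⁻¹ y) := h'.mul _ _ _
    have a2 : S.ρ' 1 y = y := h'.one y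
    rw [← a1, mul_inv_cancel, a2]
  have inv2 : ∀ y, S.ρ τ⁻¹ (S.ρ τ y) = y := fun y => by rw [← h.mul, inv_mul_cancel, h.one]
  -- the commutator
  obtain ⟨F, hF⟩ : ∃ F : V → V, F = fun y => S.ρ τ (f (S.ρ τ⁻¹ y)) - f y := ⟨_, rfl⟩
  obtain ⟨F', hF'⟩ : ∃ F' : V' → V', F' = fun y => S.ρ' τ (f' (S.ρ' τ⁻¹ y)) - f' y := ⟨_, rfl⟩
  have hFE : Cs S F := by
    rw [hF]
    exact (hf.conj h h' τ).sub hf
  have hFF : ∀ x', S.q (F' x') = F (S.q x') := by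
    intro x'
    rw [hF, hF']
    show S.q (S.ρ' τ (f' (S.ρ' τ⁻¹ x')) - f' x') = S.ρ τ (f (S.ρ τ⁻¹ (S.q x'))) - f (S.q x')
    rw [map_sub, hff, h.qe, hff, h.qe]
  have c4 := claim4 h h' hFE hFF (fun y x hx z hz => by
    rw [hF]
    show S.δ (S.ρ τ (f (S.ρ τ⁻¹ y)) - f y) x z = 0
    rw [h.dsub _ _ hx hz, hρ _ x hx z hz, h0 _ x hx z hz, h0 _ x hx z hz,
      ← hρ (S.ρ τ⁻¹ y) x hx z hz, inv1, zz]) (fun y x hx z hz => by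
    rw [hF']
    show S.δ' (S.ρ' τ (f' (S.ρ' τ⁻¹ y)) - f' y) x z = 0
    have a1 : S.δ' (S.ρ' τ (f' (S.ρ' τ⁻¹ y)) - f' y) x z =
      S.δ' (S.ρ' τ (f' (S.ρ' τ⁻¹ y))) x z + S.δ' (f' y) x z := h'.dsub _ _ hx hz
    rw [a1, hρ' _ x hx z hz, h0' _ x hx z hz, h0' _ x hx z hz,
      ← hρ' (S.ρ' τ⁻¹ y) x hx z hz, inv1', zz])
  obtain ⟨w, hw⟩ := c4 (S.ρ τ v0)
  rw [hF] at hw
  have hw' : S.ρ τ (f v0) - f (S.ρ τ v0) = (2 : ℤ) • w := by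
    have : S.ρ τ (f (S.ρ τ⁻¹ (S.ρ τ v0))) - f (S.ρ τ v0) = (2 : ℤ) • w := hw
    rwa [inv2] at this
  obtain ⟨A, k1, k2⟩ := fwd v0
  obtain ⟨A', k3, k4⟩ := fwd (f v0)
  have b1 : S.ρ τ v0 = v0 + S.q A := by rw [← k1]; abel
  have b2 : S.ρ τ (f v0) = f v0 + S.q A' := by rw [← k3]; abel
  rw [b1, b2, hf.add, ← hff, ← h.qp] at hw'
  have b3 : A' - f' A = S.p w := by
    apply q_inj h'
    rw [map_sub, ← hw']
    abel
  have b4 : S.δ' (A' - f' A) e1 e3 = S.δ' A' e1 e3 + S.δ' (f' A) e1 e3 := h'.dsub _ _ he1 he3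
  have b5 : S.δ' (S.p w) e1 e3 = 0 := h'.im _ _ he1 _ he3
  rw [b3, b5, h0' _ _ he1 _ he3, k2 _ he1 _ he3, k4 _ he1 _ he3, h0 _ _ hx0 _ hy0, hd,
    pr_left m21.symm m31 m32] at b4
  revert b4
  have : ∀ a b : ZMod 2, 0 = a * 1 * 1 + b * (1 * 1) → a = b := by decide
  exact this _ _

include h h' in
/-- The endomorphisms are scalars modulo two. -/
theorem scal_two {f : V → V} (hf : Cs S f) : ∃ z : ℤ, ∀ v, ∃ w,
    f v - z • v = (2 : ℤ) • w := by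
  obtain ⟨f', hf', hff⟩ := dualE h h' hf
  obtain ⟨ε, hε⟩ := claim2 h h' (hf.cw h)
  obtain ⟨ε', hε'⟩ := claim2 (S := S.swap) h' h hf'
  have hε'' : ∀ v', ∀ x ∈ S.Rd, ∀ y ∈ S.Rd, S.δ' (f' v') x y = ε' * S.δ' v' x y := hε'
  -- the common scalar
  obtain ⟨e, he, he'⟩ : ∃ e : ZMod 2, (∀ v, ∀ x ∈ S.Rb, ∀ y ∈ S.Rb, S.δ (f v) x y = e * S.δ v x y) ∧
      ∀ v', ∀ x ∈ S.Rd, ∀ y ∈ S.Rd, S.δ' (f' v') x y = e * S.δ' v' x y := by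
    by_cases hex : ∃ v, ∃ x ∈ S.Rb, ∃ y ∈ S.Rb, S.δ v x y = 1
    · obtain ⟨v0, x0, hx0, y0, hy0, h0⟩ := hex
      have := claim3 h h' hf hff hε hε'' hx0 hy0 h0
      subst this
      exact ⟨ε, hε, hε''⟩
    · push Not at hex
      have h0 : ∀ v, ∀ x ∈ S.Rb, ∀ y ∈ S.Rb, S.δ v x y = 0 := fun v x hx y hy =>
        (zero_or h v x y).resolve_right (hex v x hx y hy)
      exact ⟨ε', fun v x hx y hy => by rw [h0 _ x hx y hy, h0 _ x hx y hy, mul_zero], hε''⟩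
  rcases zcases e with e0 | e1
  · refine ⟨0, fun v => ?_⟩
    obtain ⟨w, hw⟩ := claim4 h h' hf hff (fun v x hx y hy => by
      rw [he v x hx y hy, e0, zero_mul]) (fun v x hx y hy => by
      rw [he' v x hx y hy, e0, zero_mul]) v
    exact ⟨w, by rw [zero_smul, sub_zero, hw]⟩
  · refine ⟨1, fun v => ?_⟩
    have hsub := hf.sub Cs.id
    obtain ⟨w, hw⟩ := claim4 h h' hsub (f' := fun x' => f' x' - x') (fun x' => by
      show S.q (f' x' - x') = f (S.q x') - S.q x'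
      rw [map_sub, hff]) (fun v x hx y hy => by
      show S.δ (f v - v) x y = 0
      rw [h.dsub _ _ hx hy, he v x hx y hy, e1, one_mul, zz]) (fun v x hx y hy => by
      have a1 : S.δ' (f' v - v) x y = S.δ' (f' v) x y + S.δ' v x y := h'.dsub _ _ hx hy
      show S.δ' (f' v - v) x y = 0
      rw [a1, he' v x hx y hy, e1, one_mul, zz]) v
    exact ⟨w, by rw [one_smul]; exact hw⟩

end main

end Pool.Agent.K9h16.ET
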