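import Pool.Agent.K9h16.ET.Tow

/-!
The homomorphisms from a representation of the Galois group to the endomorphisms of the group of the
classes, in terms of cocycles.
-/

set_option autoImplicit false
set_option linter.all false

open Polynomial IsDedekindDomain WeierstrassCurve WeierstrassCurve.Affine
open scoped Classical Pointwise

namespace Pool.Agent.K9h16.ET

open Pool.Agent.TH115.GD Pool.Agent.K9h16.PT Pool.Agent.K9h16.QT Pool.Agent.K9h16.MT
  Pool.Agent.R939.EI

/-- The locally trivial compatible sequences. -/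
def Cl {K F : Type} [Field K] [Field F] [Algebra K F] (k' : Type) [Field k'] [Algebra k'[X] F]
    [IsFractionRing k'[X] F] (W : WeierstrassCurve K) (c : Cc W F) : Prop :=
  IsTC W c ∧ ∀ n, LocallyTrivial k' W (c n)

section tr

variable {K K' F : Type} [Field K] [Field K'] [Field F] [Algebra K F] [Algebra K' F]
  {α β : K} {α' β' : K'} {ρ : F} (h : IsTrT α β α' β' ρ)

theorem tr_add (c c' : Cc (crvT α β) F) : trCT h (c + c') = trCT h c + trCT h c' := by
  funext n σ
  exact map_add (PhiT h (Sep F)) _ _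

theorem tr_sub (c c' : Cc (crvT α β) F) : trCT h (c - c') = trCT h c - trCT h c' := by
  funext n σ
  exact map_sub (PhiT h (Sep F)) _ _

theorem tr_zsmul (z : ℤ) (c : Cc (crvT α β) F) : trCT h (z • c) = z • trCT h c := by
  funext n σ
  exact map_zsmul (PhiT h (Sep F)) _ _

theorem tr_symm' (c : Cc (crvT α β) F) : trCT h.symm (trCT h c) = c := by
  funext n σ
  exact PhiT_symm' h (Sep F) (c n σ)

variable {k' : Type} [Field k'] [Algebra k'[X] F] [IsFractionRing k'[X] F]

theorem cl_tr {c : Cc (crvT α β) F} (hc : Cl k' (crvT α β) c) : Cl k' (crvT α' β') (trCT h c) :=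
  ⟨tc_tr h hc.1, fun n => lt_tr h (hc.2 n)⟩

end tr

section bot

variable {k' K F : Type} [Field k'] [Field K] [Field F] [Algebra k'[X] F] [IsFractionRing k'[X] F]
  [Algebra K F] {W : WeierstrassCurve K}

theorem pc_bot {c : Cc W F} (hc : Cl k' W c) : PC k' W (⊥ : Subgroup (Sep F ≃ₐ[K] Sep F)) c := by
  refine ⟨hc.1, hc.2, fun τ hτ => ?_⟩
  rw [Subgroup.mem_bot] at hτ
  subst hτ
  refine ⟨0, fun n => 0, ⟨rfl, fun n => smul_zero _⟩, fun n σ σ' hσ => ?_⟩
  have e : σ' = σ := AlgEquiv.ext fun z => hσ z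
  have e1 : ak (1 : Sep F ≃ₐ[K] Sep F) = AlgHom.id K (Sep F) := rfl
  have e2 : act W (AlgHom.id K (Sep F)) (c n σ) = c n σ := Point.map_id _
  rw [e, e1, e2, sub_self, smul_zero, map_zero, sub_zero]

theorem cl_of {H : Subgroup (Sep F ≃ₐ[K] Sep F)} {c : Cc W F} (hc : PC k' W H c) : Cl k' W c :=
  ⟨hc.tc, hc.loc⟩

end bot

section glue

variable {k k' : Type} [Field k] [Field k'] [Algebra k k'] [IsSepClosure k k']
    {L : IntermediateField k k'} [FiniteDimensional k L]
    {K F : Type} [Field K] [Algebra L[X] K]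
    [Field F] [Algebra k'[X] F] [IsFractionRing k'[X] F] [Algebra K F]
    (hT : IsTower L k' K F)

include hT in
/-- The values are scalars, in terms of cocycles. -/
theorem glueE {M : IntermediateField k k'} [FiniteDimensional k M] {a b : k[X]}
    (hG : GC (a.map (algebraMap k M)) (b.map (algebraMap k M)))
    (h6 : 6 ≤ (b.map (algebraMap k M)).natDegree)
    (h6' : 6 ≤ ((a.map (algebraMap k M)) ^ 2 - 4 * b.map (algebraMap k M)).natDegree)
    {δ : L} (hδ : δ ≠ 0)
    {U : Type} [AddCommGroup U] [DistribMulAction (k' ≃ₐ[k] k') U]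
    (hU : ∀ s : k' ≃ₐ[k] k', (∀ z ∈ M, s z = z) → ∀ x : U, ∃ y : U, s • x - x = y + y)
    {W : WeierstrassCurve K} (hW : W = crvT (algebraMap L[X] K (C δ * a.map (algebraMap k L)))
      (algebraMap L[X] K (C (δ ^ 2) * b.map (algebraMap k L))))
    {h : U → Cc W F → Cc W F}
    (hcl : ∀ x c, Cl k' W c → Cl k' W (h x c))
    (hnul : ∀ x c, Cl k' W c → Nul W c → Nul W (h x c))
    (haddL : ∀ x y c, Cl k' W c → Nul W (h (x + y) c - (h x c + h y c)))
    (haddR : ∀ x c c', Cl k' W c → Cl k' W c' → Nul W (h x (c + c') - (h x c + h x c')))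
    (hequ : ∀ (s : k' ≃ₐ[L] k') (τ : Sep F ≃ₐ[K] Sep F), Lifts s τ → ∀ (x : U) (c c' : Cc W F),
      Cl k' W c → Cl k' W c' →
      (∀ (n : ℕ) (σ σ' : Sep F ≃ₐ[F] Sep F), (∀ z, τ (σ' z) = σ (τ z)) →
        c' n σ = act W (ak τ) (c n σ')) →
      ∀ n : ℕ, ∃ R : Pt W (Sep F), 2 ^ (n + 1) • R = 0 ∧
        ∀ σ σ' : Sep F ≃ₐ[F] Sep F, (∀ z, τ (σ' z) = σ (τ z)) →
          h ((s.restrictScalars k : k' ≃ₐ[k] k') • x) c' n σ - act W (ak τ) (h x c n σ') =
            act W (rs K σ) R - R) (x : U) (j : ℕ) :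
    ∃ z : ℤ, ∀ c, Cl k' W c → ∃ w, Cl k' W w ∧ Nul W (h x c - z • c - (2 : ℤ) ^ j • w) := by
  subst hW
  haveI := hT.fracK
  haveI : IsSepClosed k' := IsSepClosure.sep_closed k
  haveI : Algebra.IsSeparable k k' := IsSepClosure.separable
  haveI : IsGalois k k' := IsSepClosure.isGalois
  haveI : Algebra.IsSeparable M k' := Algebra.isSeparable_tower_top_of_isSeparable k M k'
  haveI : IsSepClosure M k' := ⟨inferInstance, inferInstance⟩
  haveI : IsGalois M k' := IsSepClosure.isGalois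
  obtain ⟨KM, _, _, _, hTM⟩ := mk_tower M k' F
  haveI := hTM.fracK
  have hS := hG.S
  have h2k' : (2 : k') ≠ 0 := two_k' hS.h2
  haveI : NeZero ((2 : ℕ) : k') := ⟨by rw [Nat.cast_ofNat]; exact h2k'⟩
  obtain ⟨ρ, hρ⟩ : ∃ ρ : k', ρ ^ 2 = algebraMap L k' δ⁻¹ := IsSepClosed.exists_pow_nat_eq _ 2
  have hδ' : algebraMap L k' δ ≠ 0 := (_root_.map_ne_zero _).2 hδ
  have hρ0 : ρ ≠ 0 := by
    rintro rfl
    rw [zero_pow two_ne_zero, map_inv₀] at hρ
    exact inv_ne_zero hδ' hρ.symm
  -- the transport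
  have htr : IsTrT (F := F) (algebraMap L[X] K (C δ * a.map (algebraMap k L)))
      (algebraMap L[X] K (C (δ ^ 2) * b.map (algebraMap k L)))
      (algebraMap M[X] KM (a.map (algebraMap k M))) (algebraMap M[X] KM (b.map (algebraMap k M)))
      (cst k' F ρ) := by
    have e0 : ∀ (p : k[X]) (x : k'), x ≠ 0 → algebraMap KM F (algebraMap M[X] KM
        (p.map (algebraMap k M))) =
        cst k' F x⁻¹ * algebraMap k'[X] F (C x * p.map (algebraMap k k')) := by
      intro p x hx
      rw [hTM.map, Polynomial.map_map, ← IsScalarTower.algebraMap_eq, map_mul, ← mul_assoc]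
      have e1 : cst k' F x⁻¹ * algebraMap k'[X] F (C x) = 1 := by
        have : cst k' F x⁻¹ = algebraMap k'[X] F (C x⁻¹) := rfl
        rw [this, ← map_mul, ← C_mul, inv_mul_cancel₀ hx, C_1, map_one]
      rw [e1, one_mul]
    refine ⟨(_root_.map_ne_zero _).2 hρ0, ?_, ?_⟩
    · rw [e0 a _ hδ', hT.map, Polynomial.map_mul, map_C, Polynomial.map_map,
        ← IsScalarTower.algebraMap_eq, ← map_pow, hρ, map_inv₀ (algebraMap L k')]
    · have e4 : ρ ^ 4 = algebraMap L k' (δ ^ 2)⁻¹ := by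
        have : ρ ^ 4 = (ρ ^ 2) ^ 2 := by ring
        rw [this, hρ, ← map_pow, inv_pow]
      rw [e0 b _ (pow_ne_zero 2 hδ'), hT.map, Polynomial.map_mul, map_C, Polynomial.map_map,
        ← IsScalarTower.algebraMap_eq, ← map_pow (cst k' F), e4, map_inv₀ (algebraMap L k'),
        map_pow (algebraMap L k')]
  have hN : Preserves KM F (Sep F) := preserves hTM.map
  have hbot : (⊥ : Subgroup (Sep F ≃ₐ[KM] Sep F)).Normal := inferInstance
  -- the action
  choose res hres using exists_restr hTM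
  let ϑ : (k' ≃ₐ[M] k') → (k' ≃ₐ[k] k') := fun s => s.restrictScalars k
  obtain ⟨ac, hac⟩ : ∃ ac : (Sep F ≃ₐ[KM] Sep F) → (U →+ U),
      ∀ τ x, ac τ x = (ϑ (res τ)) • x :=
    ⟨fun τ => DistribSMul.toAddMonoidHom U (ϑ (res τ)), fun τ x => rfl⟩
  have a_one : ∀ x, ac 1 x = x := by
    intro x
    have e : res 1 = 1 := lifts_uniq (hres 1) lifts_one
    rw [hac, e]
    exact one_smul _ x
  have a_mul : ∀ g g' x, ac (g * g') x = ac g (ac g' x) := by
    intro g g' x
    have e : res (g * g') = res g * res g' := lifts_uniq (hres _) ((hres g).mul (hres g'))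
    rw [hac, hac, hac, e, ← mul_smul]
    rfl
  have hmodU : ∀ g x, ∃ y, ac g x - x = (2 : ℤ) • y := by
    intro g x
    obtain ⟨y, hy⟩ := hU (ϑ (res g)) (fun z hz => (res g).commutes ⟨z, hz⟩) x
    exact ⟨y, by rw [hac, hy, two_zsmul]⟩
  -- the field
  obtain ⟨S, hSS⟩ : ∃ S : Set k', S = {ρ} ∪ Set.range
    (fun i => ((Module.finBasis k L i : L) : k')) := ⟨_, rfl⟩
  haveI : Finite S := by
    rw [hSS]
    exact (Set.finite_singleton _).union (Set.finite_range _)
  obtain ⟨M1, hM1⟩ : ∃ M1 : FiniteGaloisIntermediateField M k',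
    M1 = FiniteGaloisIntermediateField.adjoin M S := ⟨_, rfl⟩
  have hSM : ∀ z ∈ S, z ∈ M1.toIntermediateField := by
    rw [hM1]
    exact fun z hz => FiniteGaloisIntermediateField.subset_adjoin M S hz
  have hρM : ρ ∈ M1.toIntermediateField := hSM _ (by rw [hSS]; exact Or.inl rfl)
  have hLM : ∀ z ∈ L, z ∈ M1.toIntermediateField := by
    intro z hz
    have e : z = ((∑ i, (Module.finBasis k L).repr ⟨z, hz⟩ i • Module.finBasis k L i : L) : k') := by
      rw [(Module.finBasis k L).sum_repr]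
    rw [e, IntermediateField.coe_sum]
    refine sum_mem fun i _ => ?_
    rw [IntermediateField.coe_smul, Algebra.smul_def, IsScalarTower.algebraMap_apply k M k']
    exact mul_mem (M1.toIntermediateField.algebraMap_mem _)
      (hSM _ (by rw [hSS]; exact Or.inr ⟨i, rfl⟩))
  haveI : FiniteDimensional M M1.toIntermediateField := M1.finiteDimensional
  haveI : IsGalois M M1.toIntermediateField := M1.isGalois
  haveI : Normal M M1.toIntermediateField := inferInstance
  -- the function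
  have hcl' : ∀ (x : U) (c : Cc (Wc KM (a.map (algebraMap k M)) (b.map (algebraMap k M))) F),
      Cl k' _ c → Cl k' (Wc KM (a.map (algebraMap k M)) (b.map (algebraMap k M)))
        (trCT htr (h x (trCT htr.symm c))) := fun x c hc => cl_tr htr (hcl x _ (cl_tr htr.symm hc))
  obtain ⟨φ, hφ⟩ : ∃ φ : U → (UU k' (Wc KM (a.map (algebraMap k M)) (b.map (algebraMap k M)))
      (⊥ : Subgroup (Sep F ≃ₐ[KM] Sep F)) →+
      (UU k' (Wc KM (a.map (algebraMap k M)) (b.map (algebraMap k M)))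
      (⊥ : Subgroup (Sep F ≃ₐ[KM] Sep F)) ⧸ NN k' _ _)), ∀ x c, φ x c =
        QuotientAddGroup.mk ⟨trCT htr (h x (trCT htr.symm c.1)), pc_bot (hcl' x c.1 (cl_of c.2))⟩ :=
    ⟨fun x => AddMonoidHom.mk' (fun c => QuotientAddGroup.mk
      ⟨trCT htr (h x (trCT htr.symm c.1)), pc_bot (hcl' x c.1 (cl_of c.2))⟩) (fun c c' => by
        rw [← QuotientAddGroup.mk_add]
        refine mk_eq.2 ?_
        have h1 := nul_tr htr (haddR x _ _ (cl_tr htr.symm (cl_of c.2))
          (cl_tr htr.symm (cl_of c'.2)))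
        rw [tr_sub, tr_add, ← tr_add] at h1
        exact h1), fun x c => rfl⟩
  obtain ⟨f, hf⟩ : ∃ f : U → ((UU k' (Wc KM (a.map (algebraMap k M)) (b.map (algebraMap k M)))
      (⊥ : Subgroup (Sep F ≃ₐ[KM] Sep F)) ⧸ NN k' _ _) →+
      (UU k' (Wc KM (a.map (algebraMap k M)) (b.map (algebraMap k M)))
      (⊥ : Subgroup (Sep F ≃ₐ[KM] Sep F)) ⧸ NN k' _ _)), ∀ x c, f x (QuotientAddGroup.mk c) =
        φ x c := ⟨fun x => QuotientAddGroup.lift _ (φ x) (fun c hc => by
          rw [AddMonoidHom.mem_ker, hφ, QuotientAddGroup.eq_zero_iff]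
          exact nul_tr htr (hnul x _ (cl_tr htr.symm (cl_of c.2)) (nul_tr htr.symm hc))),
          fun x c => rfl⟩
  have hfe : f ∈ Eqv (cc (rho hTM hN hbot)) ac (HM k' KM F (M1.toIntermediateField : Set k')) := by
    refine ⟨fun x y => ?_, fun g hg x => ?_⟩
    · apply AddMonoidHom.ext
      intro v
      obtain ⟨c, rfl⟩ := QuotientAddGroup.mk_surjective v
      rw [AddMonoidHom.add_apply, hf, hf, hf, hφ, hφ, hφ, ← QuotientAddGroup.mk_add]
      refine mk_eq.2 ?_
      have h1 := nul_tr htr (haddL x y _ (cl_tr htr.symm (cl_of c.2)))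
      rw [tr_sub, tr_add] at h1
      exact h1
    · -- it is sufficient to look at the conjugates
      suffices hs : ∀ v, f (ac g x) (rho hTM hN hbot g v) = rho hTM hN hbot g (f x v) by
        apply AddMonoidHom.ext
        intro v
        have e := hs (rho hTM hN hbot g⁻¹ v)
        rw [← q_mul hTM hN hbot, mul_inv_cancel, q_one hTM hN hbot] at e
        rw [e]
        rfl
      intro v
      obtain ⟨c, rfl⟩ := QuotientAddGroup.mk_surjective v
      rw [rho_mk, hf, hf, hφ, hφ, rho_mk]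
      refine mk_eq.2 ?_
      have hfx : ∀ z ∈ M1.toIntermediateField, res g z = z := (lifts_mem_HM (hres g) _).1 hg
      have hfix : ∀ p : L[X], g (algebraMap K (Sep F) (algebraMap L[X] K p)) =
          algebraMap K (Sep F) (algebraMap L[X] K p) := by
        intro p
        rw [IsScalarTower.algebraMap_apply K F (Sep F), hT.map, hres g, Polynomial.map_map]
        congr 3
        ext z
        exact hfx _ (hLM z z.2)
      obtain ⟨τ, hτ⟩ : ∃ τ : Sep F ≃ₐ[K] Sep F, ∀ z, τ z = g z :=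
        ⟨AlgEquiv.ofRingEquiv (f := g.toRingEquiv) (by
          intro z
          obtain ⟨n, d, hd, rfl⟩ := IsFractionRing.div_surjective (A := L[X]) z
          show g _ = _
          rw [map_div₀, map_div₀, hfix, hfix]), fun z => rfl⟩
      obtain ⟨s, hs⟩ : ∃ s : k' ≃ₐ[L] k', ∀ z, s z = res g z :=
        ⟨AlgEquiv.ofRingEquiv (f := (res g).toRingEquiv) (fun z => hfx _ (hLM z z.2)),
          fun z => rfl⟩
      have hsr : (s.restrictScalars k : k' ≃ₐ[k] k') = ϑ (res g) := AlgEquiv.ext hs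
      have hlift : Lifts s τ := by
        intro p
        have e : ((res g : k' ≃ₐ[M] k') : k' →+* k') = ((s : k' ≃ₐ[L] k') : k' →+* k') :=
          RingHom.ext fun z => (hs z).symm
        rw [hτ, hres g p, e]
      have hρg : g (algebraMap F (Sep F) (cst k' F ρ)) = algebraMap F (Sep F) (cst k' F ρ) :=
        hg ρ hρM
      obtain ⟨c1, hc1⟩ : ∃ c1, c1 = trCT htr.symm c.1 := ⟨_, rfl⟩
      obtain ⟨c2, hc2⟩ : ∃ c2, c2 = trCT htr.symm (TU hTM hN hbot g c).1 := ⟨_, rfl⟩
      have k1 : Cl k' _ c1 := by rw [hc1]; exact cl_tr htr.symm (cl_of c.2)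
      have k2 : Cl k' _ c2 := by rw [hc2]; exact cl_tr htr.symm (cl_of (TU hTM hN hbot g c).2)
      have k3 : ∀ (n : ℕ) (σ σ' : Sep F ≃ₐ[F] Sep F), (∀ z, τ (σ' z) = σ (τ z)) →
          c2 n σ = act _ (ak τ) (c1 n σ') := by
        intro n σ σ' hσ
        have ecj : cj hN g σ = σ' := cj_eq hN (fun z => by rw [← hτ, hσ, hτ])
        have h3 := PhiT_semi htr.symm g τ (fun z => (hτ z).symm) (ε := 1) (by
          rw [Units.val_one, Int.cast_one, one_mul, map_inv₀, map_inv₀, hρg]) (c.1 n σ')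
        rw [Units.val_one, one_smul] at h3
        rw [hc1, hc2]
        show PhiT htr.symm (Sep F) (act _ (ak g) (c.1 n (cj hN g σ))) =
          act _ (ak τ) (PhiT htr.symm (Sep F) (c.1 n σ'))
        rw [h3, ecj]
      show Nul _ (trCT htr (h (ac g x) (trCT htr.symm (TU hTM hN hbot g c).1)) -
        TA hN g (trCT htr (h x (trCT htr.symm c.1))))
      rw [← hc1, ← hc2]
      intro n
      obtain ⟨R, hR, e⟩ := hequ s τ hlift x c1 c2 k1 k2 k3 n
      refine ⟨PhiT htr (Sep F) R, by rw [← map_nsmul, hR, map_zero], fun σ => ?_⟩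
      show PhiT htr (Sep F) (h (ac g x) c2 n σ) -
        act _ (ak g) (PhiT htr (Sep F) (h x c1 n (cj hN g σ))) =
        act _ (rs KM σ) (PhiT htr (Sep F) R) - PhiT htr (Sep F) R
      have h2 := PhiT_semi htr τ g hτ (ε := 1) (by
        rw [hτ, Units.val_one, Int.cast_one, one_mul]
        exact hρg) (h x c1 n (cj hN g σ))
      rw [Units.val_one, one_smul] at h2
      rw [h2, hac, ← hsr, ← map_sub, e σ (cj hN g σ) (fun z => by
        rw [hτ, hτ]
        exact cj_spec hN g σ z), map_sub, PhiT_rs]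
  obtain ⟨z, hz⟩ := scal_tow hTM hS hN hbot (HM_normal hTM M1.toIntermediateField)
    (HM_fin hTM M1.toIntermediateField) a_one a_mul hmodU
    (swF_of hS.sb hS.sd hG.fb hG.db) (swF_of hS.sd hS.sb hG.fd hG.bd)
    (pureG_of h2k' hS.sb hS.sd hS.cop hG.fb hG.fd hG.db hG.bd hG.mn) h6 h6' hfe x j
  refine ⟨z, fun c hc => ?_⟩
  obtain ⟨w, hw⟩ := hz (QuotientAddGroup.mk ⟨trCT htr c, pc_bot (cl_tr htr hc)⟩)
  obtain ⟨d, rfl⟩ := QuotientAddGroup.mk_surjective w
  refine ⟨trCT htr.symm d.1, cl_tr htr.symm (cl_of d.2), ?_⟩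
  rw [hf, hφ, ← QuotientAddGroup.mk_zsmul, ← QuotientAddGroup.mk_zsmul,
    ← QuotientAddGroup.mk_sub] at hw
  have h1 := mk_eq.1 hw
  apply nul_tr' htr
  rw [tr_sub, tr_sub, tr_zsmul, tr_zsmul, tr_symm htr]
  have e : (((⟨trCT htr (h x (trCT htr.symm (trCT htr c))), pc_bot (hcl' x _ (cl_tr htr hc))⟩ :
      UU k' (Wc KM (a.map (algebraMap k M)) (b.map (algebraMap k M)))
      (⊥ : Subgroup (Sep F ≃ₐ[KM] Sep F))) - z • (⟨trCT htr c, pc_bot (cl_tr htr hc)⟩ :
      UU k' (Wc KM (a.map (algebraMap k M)) (b.map (algebraMap k M)))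
      (⊥ : Subgroup (Sep F ≃ₐ[KM] Sep F))) : UU k' (Wc KM (a.map (algebraMap k M))
      (b.map (algebraMap k M))) (⊥ : Subgroup (Sep F ≃ₐ[KM] Sep F))) : Cc _ F) =
      trCT htr (h x c) - z • trCT htr c := by
    show trCT htr (h x (trCT htr.symm (trCT htr c))) - z • trCT htr c = _
    rw [tr_symm' htr]
  have h2 : Nul _ (trCT htr (h x c) - z • trCT htr c - (2 : ℤ) ^ j • d.1) := by
    rw [← e]
    exact h1
  exact h2

end glue

end Pool.Agent.K9h16.ET
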