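import Pool.Agent.K9h16.ET.Fin
import Pool.Agent.K9h16.MT.Van2
import Pool.Agent.K9h16.QT.Pur

/-!
The groups of the classes of the two isogenous curves satisfy the properties of the algebra.
-/

set_option autoImplicit false
set_option linter.all false

open Polynomial IsDedekindDomain WeierstrassCurve WeierstrassCurve.Affine
open scoped Classical Pointwise

namespace Pool.Agent.K9h16.ET

open Pool.Agent.TH115.GD Pool.Agent.K9h16.PT Pool.Agent.K9h16.QT Pool.Agent.K9h16.MT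
  Pool.Agent.R939.EI

section gen

variable {k' K F : Type} [Field k'] [Field K]
    [Field F] [Algebra k'[X] F] [IsFractionRing k'[X] F] [Algebra K F]
    {W : WeierstrassCurve K} {H : Subgroup (Sep F ≃ₐ[K] Sep F)}

/-- A parity function of a class. -/
def PQ (v : UU k' W H ⧸ NN k' W H) (φ : k' → ZMod 2) : Prop :=
  ∃ c : UU k' W H, QuotientAddGroup.mk c = v ∧ PF W (c.1 1) φ

/-- The differences of the parity function. -/
noncomputable def dl (v : UU k' W H ⧸ NN k' W H) (x y : k') : ZMod 2 :=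
  if h : ∃ φ, PQ v φ then h.choose x + h.choose y else 0

end gen

section tow

variable {k k' K F : Type} [Field k] [Field k'] [Algebra k k'] [Field K] [Algebra k[X] K]
    [Field F] [Algebra k'[X] F] [IsFractionRing k'[X] F] [Algebra K F]
    (hT : IsTower k k' K F) {a b : k[X]} (hS : Sd a b)
  (hN : Preserves K F (Sep F)) {H : Subgroup (Sep F ≃ₐ[K] Sep F)} (hH : H.Normal)

include hT hS in
theorem pq_ex (v : UU k' (Wc K a b) H ⧸ NN k' (Wc K a b) H) : ∃ φ, PQ v φ := by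
  haveI := hT.fracK
  obtain ⟨α, γ, hR⟩ := exists_rts hT hS
  obtain ⟨c, rfl⟩ := QuotientAddGroup.mk_surjective v
  obtain ⟨f, hf⟩ := pf_exists hR k' (c.2.tc.coc 1) (two_tc c.2.tc)
  exact ⟨f, c, rfl, hf⟩

include hT hS in
theorem dl_eq {v : UU k' (Wc K a b) H ⧸ NN k' (Wc K a b) H} {φ : k' → ZMod 2} (h : PQ v φ)
    {x y : k'} (hx : aeval x b = 0) (hy : aeval y b = 0) : dl v x y = φ x + φ y := by
  haveI := hT.fracK
  obtain ⟨α, γ, hR⟩ := exists_rts hT hS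
  have hex : ∃ φ, PQ v φ := ⟨φ, h⟩
  obtain ⟨ψ, hψ⟩ : ∃ ψ, ψ = hex.choose := ⟨_, rfl⟩
  have h1 : PQ v ψ := by rw [hψ]; exact hex.choose_spec
  have e1 : dl v x y = ψ x + ψ y := by rw [hψ, dl, dif_pos hex]
  rw [e1]
  obtain ⟨c, hc, hcf⟩ := h
  obtain ⟨d, hd, hdf⟩ := h1
  have hnul : Nul (Wc K a b) (c.1 - d.1) := mk_eq.1 (hc.trans hd.symm)
  have hsub := pf_sub hR hcf hdf (two_tc c.2.tc) (two_tc d.2.tc)
  have htc : IsTC (Wc K a b) (c.1 - d.1) := (c - d).2.tc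
  obtain ⟨κ, hκ⟩ := pf_nul hT hS hR htc hnul hsub
  have hx' := hκ x hx
  have hy' := hκ y hy
  rw [Pi.add_apply] at hx' hy'
  rw [← hy'] at hx'
  have : ∀ a b c d : ZMod 2, a + b = c + d → b + d = a + c := by decide
  exact this _ _ _ _ hx'

include hT hS in
theorem pq_add {v w : UU k' (Wc K a b) H ⧸ NN k' (Wc K a b) H} {φ ψ : k' → ZMod 2} (h : PQ v φ)
    (h' : PQ w ψ) : PQ (v + w) (φ + ψ) := by
  haveI := hT.fracK
  obtain ⟨α, γ, hR⟩ := exists_rts hT hS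
  obtain ⟨c, hc, hcf⟩ := h
  obtain ⟨d, hd, hdf⟩ := h'
  refine ⟨c + d, by rw [QuotientAddGroup.mk_add, hc, hd], ?_⟩
  exact pf_add hR hcf hdf (two_tc c.2.tc) (two_tc d.2.tc)

variable {a' b' : k[X]} (hS' : Sd a' b') {u u' : K}
    (D1 : Dat (algebraMap k[X] K a) (algebraMap k[X] K b) (algebraMap k[X] K a')
      (algebraMap k[X] K b') u)
    (D2 : Dat (algebraMap k[X] K a') (algebraMap k[X] K b') (algebraMap k[X] K a)
      (algebraMap k[X] K b) u')
    (huu : u * u' = 2)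
    (r1 : ∀ θ : k', aeval θ b' = 0 ↔ aeval θ (a ^ 2 - 4 * b) = 0)
    {α β : Sep F} (hR : Roots (algebraMap k[X] K a) (algebraMap k[X] K b) (Sep F) α β)
    {α' β' : Sep F} (hR' : Roots (algebraMap k[X] K a') (algebraMap k[X] K b') (Sep F) α' β')

include hT hS hS' D1 huu r1 hR hR' in
/-- One half of the square root of the square. -/
theorem half [NeZero (2 : K)] {s : k' ≃ₐ[k] k'} {τ : Sep F ≃ₐ[K] Sep F} (hs : Lifts s τ)
    (hτ : τ α = α) (hsb : ∀ θ : k', aeval θ b = 0 → s θ = θ)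
    (hsd : ∀ θ : k', aeval θ b' = 0 → s θ = θ)
    (v : UU k' (Wc K a b) H ⧸ NN k' (Wc K a b) H) :
    ∃ (v' : UU k' (Wc K a' b') H ⧸ NN k' (Wc K a' b') H),
      rho hT hN hH τ v - v = pq (isoN D2) k' H v' ∧
      ∀ φ, PQ v φ → ∀ x y : k', aeval x b' = 0 → aeval y b' = 0 →
        dl v' x y = ∑ η ∈ (RB k' b).filter (fun η => φ η = 1), sg s (x - η) +
          ∑ η ∈ (RB k' b).filter (fun η => φ η = 1), sg s (y - η) := by
  haveI := hT.sep
  haveI := hT.fracK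
  have h12 : ∀ P : Pt (Wc K a b) (Sep F),
      (isoN D2).f (Sep F) ((isoN D1).f (Sep F) P) = P + P := fun P =>
    isoH_dbl (Sep F) D1 D2 huu P
  have step : ∀ c : UU k' (Wc K a b) H, ∃ (e' : UU k' (Wc K a' b') H),
      rho hT hN hH τ (QuotientAddGroup.mk c) - (QuotientAddGroup.mk c :
        UU k' (Wc K a b) H ⧸ NN k' (Wc K a b) H) =
        pq (isoN D2) k' H (QuotientAddGroup.mk e') ∧ e'.1 = shp (isoN D1) (TA hN τ c.1 - c.1) := by
    intro c
    obtain ⟨e, he⟩ : ∃ e, e = TA hN τ c.1 - c.1 := ⟨_, rfl⟩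
    have hPe : PC k' (Wc K a b) H e := by rw [he]; exact pc_diff hT hN hH c.2 τ
    have hone : ∀ σ, e 1 σ = 0 ∨ e 1 σ = pt0 hR.E := fun σ => by
      rw [he]; exact diff_one hT hS hR hN hH c.2 hs hsb σ
    have hk1 : ∀ σ, (isoN D1).f (Sep F) (e 1 σ) = 0 := fun σ => (iso_ker hR D1).2 (hone σ)
    have hPe' : PC k' (Wc K a' b') H (shp (isoN D1) e) := pc_shp (isoN D1) hPe hk1
    have h3 : push (isoN D2) (shp (isoN D1) e) = e := push_shp (isoN D1) (isoN D2) h12 hPe.tc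
    refine ⟨⟨shp (isoN D1) e, hPe'⟩, ?_, congrArg (shp (isoN D1)) he⟩
    rw [pq_mk, rho_mk, ← QuotientAddGroup.mk_sub]
    congr 1
    apply Subtype.ext
    show TA hN τ c.1 - c.1 = push (isoN D2) (shp (isoN D1) e)
    rw [h3, he]
  obtain ⟨c, hc⟩ := QuotientAddGroup.mk_surjective v
  obtain ⟨e', he, he'⟩ := step c
  refine ⟨QuotientAddGroup.mk e', by rw [← hc]; exact he, fun φ hφ x y hx hy => ?_⟩
  obtain ⟨d, hd, hdf⟩ := hφ
  obtain ⟨g', hg, hg'⟩ := step d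
  have hinj : (QuotientAddGroup.mk e' : UU k' (Wc K a' b') H ⧸ NN k' (Wc K a' b') H) =
      QuotientAddGroup.mk g' := by
    apply pq_inj (isoN D2) (isoN D1) (noFour_Wc hT hS' hR')
      (fun P => isoH_dbl (Sep F) D2 D1 (by rw [mul_comm]; exact huu) P)
    rw [← he, ← hg, hc, hd]
  obtain ⟨f', hf'⟩ := pf_exists hR' k' (g'.2.tc.coc 1) (two_tc g'.2.tc)
  have hf1 : PF (Wc K a' b') (shp (isoN D1) (TA hN τ d.1 - d.1) 1) f' := by
    rw [← hg']
    exact hf'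
  obtain ⟨κ, hκ⟩ := frm hT hS hR hN hH d.2 hs hτ hsb (fun θ hθ => hsd θ ((r1 θ).2 hθ)) D1 hdf hf1
  rw [hinj, dl_eq hT hS' ⟨g', rfl, hf'⟩ hx hy, hκ x ((r1 x).1 hx), hκ y ((r1 y).1 hy)]
  have : ∀ a b c : ZMod 2, a + c + (b + c) = a + b := by decide
  exact this _ _ _

include hT hS D1 huu in
/-- The kernel of the differences. -/
theorem ker_side [NeZero (2 : K)] (v : UU k' (Wc K a b) H ⧸ NN k' (Wc K a b) H)
    (h : ∀ x : k', aeval x b = 0 → ∀ y : k', aeval y b = 0 → dl v x y = 0) :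
    ∃ v', pq (isoN D2) k' H v' = v := by
  haveI := hT.fracK
  obtain ⟨c, rfl⟩ := QuotientAddGroup.mk_surjective v
  obtain ⟨e, he, hen⟩ := QT.desc hT hS D1 D2 huu c.2 (fun f hf => by
    by_cases hex : ∃ x0 : k', aeval x0 b = 0
    · obtain ⟨x0, hx0⟩ := hex
      refine ⟨f x0, fun θ hθ => ?_⟩
      have h1 := h θ hθ x0 hx0
      rw [dl_eq hT hS ⟨c, rfl, hf⟩ hθ hx0] at h1
      have : ∀ a b : ZMod 2, a + b = 0 → a = b := by decide
      exact this _ _ h1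
    · exact ⟨0, fun θ hθ => absurd ⟨θ, hθ⟩ hex⟩)
  refine ⟨QuotientAddGroup.mk ⟨e, he⟩, ?_⟩
  rw [pq_mk]
  exact (mk_eq.2 hen).symm

include hT hS hR' in
/-- The differences vanish on the image. -/
theorem im_side [NeZero (2 : K)] (v' : UU k' (Wc K a' b') H ⧸ NN k' (Wc K a' b') H) {x y : k'}
    (hx : aeval x b = 0) (hy : aeval y b = 0) : dl (pq (isoN D2) k' H v') x y = 0 := by
  obtain ⟨c', rfl⟩ := QuotientAddGroup.mk_surjective v'
  have h1 : PF (Wc K a b) ((pu (isoN D2) k' H c').1 1) (0 : k' → ZMod 2) := by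
    refine ⟨1, 1, one_ne_zero, by rw [one_pow, map_one], fun σ => ?_, fun θ => (par_one _).symm⟩
    have h3 : s0 (isoH (Sep F) D2 (c'.1 1 σ)) = s1 α' (c'.1 1 σ + c'.1 1 σ) :=
      iso_s0 hR' D2 (Or.inl (two_tc c'.2.tc σ))
    have h4 : s0 ((pu (isoN D2) k' H c').1 1 σ) = 1 := by
      show s0 (isoH (Sep F) D2 (c'.1 1 σ)) = 1
      rw [h3, two_tc c'.2.tc σ, s1_zero]
    rw [h4, map_one, mul_one]
  rw [pq_mk, dl_eq hT hS ⟨_, rfl, h1⟩ hx hy]
  rfl

include hT hS in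
/-- The transpositions. -/
theorem sw_side {β1 β2 : k'} (h1 : aeval β1 b = 0) (h2 : aeval β2 b = 0) {s : k' ≃ₐ[k] k'}
    (s1 : s β1 = β2) (s2 : s β2 = β1)
    (s3 : ∀ θ : k', aeval θ b = 0 → θ ≠ β1 → θ ≠ β2 → s θ = θ) {τ : Sep F ≃ₐ[K] Sep F}
    (hτ : Lifts s τ) (v : UU k' (Wc K a b) H ⧸ NN k' (Wc K a b) H) {x y : k'}
    (hx : aeval x b = 0) (hy : aeval y b = 0) :
    dl (rho hT hN hH τ v) x y = dl v (Equiv.swap β1 β2 x) (Equiv.swap β1 β2 y) := by
  obtain ⟨φ, hφ⟩ := pq_ex hT hS v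
  have key : ∀ x : k', aeval x b = 0 → s.symm x = Equiv.swap β1 β2 x ∧
      aeval (Equiv.swap β1 β2 x) b = 0 := by
    intro x hx
    by_cases e1 : x = β1
    · rw [e1, Equiv.swap_apply_left]
      exact ⟨by rw [AlgEquiv.symm_apply_eq, s2], h2⟩
    · by_cases e2 : x = β2
      · rw [e2, Equiv.swap_apply_right]
        exact ⟨by rw [AlgEquiv.symm_apply_eq, s1], h1⟩
      · rw [Equiv.swap_apply_of_ne_of_ne e1 e2]
        exact ⟨by rw [AlgEquiv.symm_apply_eq, s3 x hx e1 e2], hx⟩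
  have h3 : PQ (rho hT hN hH τ v) (fun θ => φ (s.symm θ)) := by
    obtain ⟨c, rfl, hcf⟩ := hφ
    refine ⟨TU hT hN hH τ c, (rho_mk hT hN hH τ c).symm, ?_⟩
    exact pf_TA hN hcf hτ
  rw [dl_eq hT hS h3 hx hy, dl_eq hT hS hφ (key x hx).2 (key y hy).2, (key x hx).1, (key y hy).1]

end tow

section sys

variable {k k' K F : Type} [Field k] [Field k'] [Algebra k k'] [Field K] [Algebra k[X] K]
    [Field F] [Algebra k'[X] F] [IsFractionRing k'[X] F] [Algebra K F]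
    (hT : IsTower k k' K F) {a b a' b' : k[X]}
  (hN : Preserves K F (Sep F)) {H : Subgroup (Sep F ≃ₐ[K] Sep F)} (hH : H.Normal) {u u' : K}
    (D1 : Dat (algebraMap k[X] K a) (algebraMap k[X] K b) (algebraMap k[X] K a')
      (algebraMap k[X] K b') u)
    (D2 : Dat (algebraMap k[X] K a') (algebraMap k[X] K b') (algebraMap k[X] K a)
      (algebraMap k[X] K b) u')

/-- The system. -/
noncomputable def mkS [NeZero (2 : K)] : Sys (Sep F ≃ₐ[K] Sep F)
    (UU k' (Wc K a b) H ⧸ NN k' (Wc K a b) H) (UU k' (Wc K a' b') H ⧸ NN k' (Wc K a' b') H) k' where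
  ρ := rho hT hN hH
  ρ' := rho hT hN hH
  q := pq (isoN D2) k' H
  p := pq (isoN D1) k' H
  Rb := {θ | aeval θ b = 0}
  Rd := {θ | aeval θ b' = 0}
  δ := dl
  δ' := dl

theorem mkS_swap [NeZero (2 : K)] : (mkS hT hN hH D1 D2).swap = mkS hT hN hH D2 D1 := rfl

theorem six_of {P : k[X]} (hP : P.Separable) (h6 : 6 ≤ P.natDegree) [IsSepClosed k']
    (T : Finset k') (hT5 : T.card ≤ 5) : ∃ x : k', aeval x P = 0 ∧ x ∉ T := by
  have hsp : (P.map (algebraMap k k')).Splits := IsSepClosed.splits_of_separable _ hP.map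
  have hc : 6 ≤ Nat.card (P.rootSet k') := by
    rw [Nat.card_eq_fintype_card, card_rootSet_eq_natDegree hP hsp]
    exact h6
  obtain ⟨S, hS⟩ : ∃ S : Finset k', S = (P.rootSet k').toFinset := ⟨_, rfl⟩
  have hSc : 6 ≤ S.card := by
    rw [hS, Set.toFinset_card, ← Nat.card_eq_fintype_card]
    exact hc
  by_contra hcon
  push Not at hcon
  have hsub : S ⊆ T := by
    intro x hx
    rw [hS, Set.mem_toFinset] at hx
    exact hcon x (by
      rw [mem_rootSet_of_ne hP.ne_zero] at hx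
      exact hx)
  have := Finset.card_le_card hsub
  omega

/-- The formula for the first kind. -/
theorem form1 {I : Type} (S : Finset I) {u1 u2 u3 u4 : I} (h1 : u1 ∈ S) (h2 : u2 ∈ S)
    (h3 : u3 ∈ S) (h4 : u4 ∈ S) (φ : I → ZMod 2) (sgf : I → I → ZMod 2) {e1 e2 e3 : I} {x y : I}
    (hx : ∀ η ∈ S, sgf x η = (ee u1 η + ee u2 η) * (ee e1 x + ee e2 x) +
      (ee u3 η + ee u4 η) * (ee e2 x + ee e3 x))
    (hy : ∀ η ∈ S, sgf y η = (ee u1 η + ee u2 η) * (ee e1 y + ee e2 y) +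
      (ee u3 η + ee u4 η) * (ee e2 y + ee e3 y)) :
    ∑ η ∈ S.filter (fun η => φ η = 1), sgf x η + ∑ η ∈ S.filter (fun η => φ η = 1), sgf y η =
      (φ u1 + φ u2) * pr e1 e2 x y + (φ u3 + φ u4) * pr e2 e3 x y := by
  have one : ∀ z : I, (∀ η ∈ S, sgf z η = (ee u1 η + ee u2 η) * (ee e1 z + ee e2 z) +
      (ee u3 η + ee u4 η) * (ee e2 z + ee e3 z)) → ∑ η ∈ S.filter (fun η => φ η = 1), sgf z η =
      (φ u1 + φ u2) * (ee e1 z + ee e2 z) + (φ u3 + φ u4) * (ee e2 z + ee e3 z) := by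
    intro z hz
    rw [sum_filter_one, ← row_sum h1 h2 h3 h4 φ]
    exact Finset.sum_congr rfl fun η hη => by rw [hz η hη]
  rw [one x hx, one y hy]
  unfold pr
  ring


include hT hN hH D1 D2 in
/-- **One side.** -/
theorem ok_side [NeZero (2 : K)] (hS : Sd a b) (hS' : Sd a' b') (huu : u * u' = 2)
    (hco : IsCoprime b b')
    (r1 : ∀ θ : k', aeval θ b' = 0 ↔ aeval θ (a ^ 2 - 4 * b) = 0)
    (r2 : ∀ θ : k', aeval θ b = 0 ↔ aeval θ (a' ^ 2 - 4 * b') = 0)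
    {α β : Sep F} (hR : Roots (algebraMap k[X] K a) (algebraMap k[X] K b) (Sep F) α β)
    {α' β' : Sep F} (hR' : Roots (algebraMap k[X] K a') (algebraMap k[X] K b') (Sep F) α' β')
    (hlf : ∀ s : k' ≃ₐ[k] k', ∃ τ : Sep F ≃ₐ[K] Sep F, Lifts s τ ∧ τ α = α ∧ τ α' = α')
    (hsw : SwG k' b) (hpure : PureG k' b b') (h6 : 6 ≤ b.natDegree) :
    Ok (mkS hT hN hH D1 D2 : Sys (Sep F ≃ₐ[K] Sep F) (UU k' (Wc K a b) H ⧸ NN k' (Wc K a b) H)
      (UU k' (Wc K a' b') H ⧸ NN k' (Wc K a' b') H) k') := by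
  haveI := hT.sep
  haveI := hT.fracK
  haveI : IsSepClosed k' := IsSepClosure.sep_closed k
  have h2' : (2 : k') ≠ 0 := two_k' hS.h2
  have huu' : u' * u = 2 := by rw [mul_comm]; exact huu
  have h12 : ∀ P : Pt (Wc K a b) (Sep F),
      (isoN D2).f (Sep F) ((isoN D1).f (Sep F) P) = P + P := fun P =>
    isoH_dbl (Sep F) D1 D2 huu P
  have r1' : ∀ θ : k', aeval θ b = 0 ↔ aeval θ (a' ^ 2 - 4 * b') = 0 := r2
  have mB : ∀ {θ : k'}, aeval θ b = 0 → θ ∈ RB k' b := fun h => (mem_RB hS.b0).2 h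
  have mD : ∀ {θ : k'}, aeval θ b' = 0 → θ ∈ RB k' b' := fun h => (mem_RB hS'.b0).2 h
  refine
    { one := q_one hT hN hH
      mul := q_mul hT hN hH
      htf := q_htf (k' := k') (noFour_Wc hT hS hR)
      hsep := q_hsep (k' := k')
      qp := pq_pq (isoN D1) (isoN D2) h12
      qe := pq_rho hT (isoN D2) hN hH
      add := ?_
      tr := ?_
      ker := fun v hv => ker_side hT hS D1 D2 huu v hv
      im := fun v' x hx y hy => im_side hT hS D2 hR' v' hx hy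
      sw := ?_
      tyA := ?_
      tyS := ?_
      six := fun T hT5 => six_of hS.sb h6 T hT5 }
  · intro v w x hx y hy
    obtain ⟨φ, hφ⟩ := pq_ex hT hS v
    obtain ⟨ψ, hψ⟩ := pq_ex hT hS w
    show dl (v + w) x y = dl v x y + dl w x y
    rw [dl_eq hT hS (pq_add hT hS hφ hψ) hx hy, dl_eq hT hS hφ hx hy, dl_eq hT hS hψ hx hy,
      Pi.add_apply, Pi.add_apply]
    ring
  · intro v x hx y hy z hz
    obtain ⟨φ, hφ⟩ := pq_ex hT hS v
    show dl v x y + dl v y z = dl v x z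
    rw [dl_eq hT hS hφ hx hy, dl_eq hT hS hφ hy hz, dl_eq hT hS hφ hx hz]
    have : ∀ a b c : ZMod 2, a + b + (b + c) = a + c := by decide
    exact this _ _ _
  · intro β1 h1 β2 h2 hne
    obtain ⟨s, s1, s2, s3⟩ := hsw β1 β2 h1 h2 hne
    obtain ⟨τ, hτ⟩ := exists_lift (K := K) (F := F) hT s
    exact ⟨τ, fun v x hx y hy => sw_side hT hS hN hH h1 h2 s1 s2 s3 hτ v hx hy⟩
  · intro β1 g1 β2 g2 β3 g3 β4 g4 e1 d1 e2 d2 e3 d3 n12 n34 m12 m23
    obtain ⟨w, w1, w2, w3, w4⟩ := exists_A h2' hco hpure g1 g2 g3 g4 d1 d2 d3 n12 n34 m12 m23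
    obtain ⟨τ, hτ, hτα, hτα'⟩ := hlf w
    refine ⟨τ, fun v => ?_, fun v' => ?_⟩
    · obtain ⟨v', k1, k2⟩ := half hT hS hN hH hS' D1 D2 huu r1 hR hR' hτ hτα w1 w2 v
      refine ⟨v', k1, fun x hx y hy => ?_⟩
      obtain ⟨φ, hφ⟩ := pq_ex hT hS v
      show dl v' x y = dl v β1 β2 * pr e1 e2 x y + dl v β3 β4 * pr e2 e3 x y
      rw [k2 φ hφ x y hx hy, dl_eq hT hS hφ g1 g2, dl_eq hT hS hφ g3 g4]
      refine form1 (RB k' b) (mB g1) (mB g2) (mB g3) (mB g4) φ (fun x η => sg w (x - η))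
        (fun η hη => ?_) (fun η hη => ?_)
      · rw [mem_RB hS.b0] at hη
        show sg w (x - η) = _
        rw [w4 η x hη hx, w3 η x hη hx]
      · rw [mem_RB hS.b0] at hη
        show sg w (y - η) = _
        rw [w4 η y hη hy, w3 η y hη hy]
    · obtain ⟨v, k1, k2⟩ := half hT hS' hN hH hS D2 D1 huu' r1' hR' hR hτ hτα' w2 w1 v'
      refine ⟨v, k1, fun x hx y hy => ?_⟩
      obtain ⟨φ, hφ⟩ := pq_ex hT hS' v'
      show dl v x y = dl v' e1 e2 * pr β1 β2 x y + dl v' e2 e3 * pr β3 β4 x y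
      rw [k2 φ hφ x y hx hy, dl_eq hT hS' hφ d1 d2, dl_eq hT hS' hφ d2 d3]
      have one : ∀ z : k', aeval z b = 0 →
          ∑ η ∈ (RB k' b').filter (fun η => φ η = 1), sg w (z - η) =
          (φ e1 + φ e2) * (ee β1 z + ee β2 z) + (φ e2 + φ e3) * (ee β3 z + ee β4 z) := by
        intro z hz
        rw [sum_filter_one, ← row_sum (mD d1) (mD d2) (mD d2) (mD d3) φ]
        refine Finset.sum_congr rfl fun η hη => ?_
        rw [mem_RB hS'.b0] at hη
        rw [w3 z η hz hη, mul_comm (ee β1 z + ee β2 z), mul_comm (ee β3 z + ee β4 z)]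
      rw [one x hx, one y hy]
      unfold pr
      ring
  · intro β1 g1 β2 g2 e1 d1 e2 d2 n12 m12
    obtain ⟨w, w1, w2, w3, w4⟩ := hpure β1 β2 e1 e2 g1 g2 d1 d2 n12 m12
    have w5 : ∀ θ η : k', aeval θ b = 0 → aeval η b' = 0 →
        sg w (η - θ) = (ee β1 θ + ee β2 θ) * (ee e1 η + ee e2 η) := by
      intro θ η hθ hη
      have hne : θ - η ≠ 0 := by
        intro e
        rw [sub_eq_zero] at e
        subst e
        exact cop_ne hco hθ hη
      have h6 := sg_neg h2' w3 hne (by rw [map_sub, w1 θ hθ, w2 η hη])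
      rw [neg_sub] at h6
      rw [h6, w4 θ η hθ hη]
    obtain ⟨τ, hτ, hτα, hτα'⟩ := hlf w
    refine ⟨τ, fun v => ?_, fun v' => ?_⟩
    · obtain ⟨v', k1, k2⟩ := half hT hS hN hH hS' D1 D2 huu r1 hR hR' hτ hτα w1 w2 v
      refine ⟨v', k1, fun x hx y hy => ?_⟩
      obtain ⟨φ, hφ⟩ := pq_ex hT hS v
      show dl v' x y = dl v β1 β2 * pr e1 e2 x y
      rw [k2 φ hφ x y hx hy, dl_eq hT hS hφ g1 g2]
      have h7 := form1 (RB k' b) (mB g1) (mB g2) (mB g1) (mB g1) φ (fun x η => sg w (x - η))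
        (e1 := e1) (e2 := e2) (e3 := e2) (x := x) (y := y)
        (fun η hη => ?_) (fun η hη => ?_)
      · rw [h7, zz, zero_mul, add_zero]
      · rw [mem_RB hS.b0] at hη
        show sg w (x - η) = _
        rw [w5 η x hη hx, zz, zero_mul, add_zero]
      · rw [mem_RB hS.b0] at hη
        show sg w (y - η) = _
        rw [w5 η y hη hy, zz, zero_mul, add_zero]
    · obtain ⟨v, k1, k2⟩ := half hT hS' hN hH hS D2 D1 huu' r1' hR' hR hτ hτα' w2 w1 v'
      exact ⟨v, k1⟩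

end sys

end Pool.Agent.K9h16.ET
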