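import Pool.Agent.K9h16.ET.Sys

/-!
The endomorphisms which commute with an open subgroup are scalars.
-/

set_option autoImplicit false
set_option linter.all false

open scoped Classical

namespace Pool.Agent.K9h16.ET

open Pool.Agent.K9h16.PT Pool.Agent.K9h16.QT Pool.Agent.K9h16.MT

section main

variable {G V V' Ω : Type} [Group G] [AddCommGroup V] [AddCommGroup V'] {S : Sys G V V' Ω}
  (h : Ok S) (h' : Ok S.swap)

/-- The additive functions which commute with the fourth powers, up to the image of `q`. -/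
structure Cw {G V V' Ω : Type} [Group G] [AddCommGroup V] [AddCommGroup V'] (S : Sys G V V' Ω)
    (f : V → V) : Prop where
  add : ∀ x y, f (x + y) = f x + f y
  com : ∀ τ, (∀ v, ∃ z, S.ρ (τ * τ) v - v = (2 : ℤ) • z) →
    (∀ v', ∃ z, S.ρ' (τ * τ) v' - v' = (2 : ℤ) • z) →
    ∀ v, ∃ w', f (S.ρ (τ * τ * (τ * τ)) v) - S.ρ (τ * τ * (τ * τ)) (f v) = (4 : ℤ) • S.q w'

theorem Cw.smul {f : V → V} (hf : Cw S f) (n : ℤ) (x : V) : f (n • x) = n • f x := by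
  have h0 : f 0 = 0 := by
    have h := hf.add 0 0
    rw [add_zero] at h
    exact left_eq_add.1 h
  let φ : V →+ V := { toFun := f, map_zero' := h0, map_add' := hf.add }
  exact map_zsmul φ n x

include h in
/-- The endomorphisms commute with the fourth powers. -/
theorem comm4 {f : V → V} (hf : Cw S f) {τ : G}
    (hτ : ∀ v, ∃ z, S.ρ (τ * τ) v - v = (2 : ℤ) • z)
    (hτ' : ∀ v', ∃ z, S.ρ' (τ * τ) v' - v' = (2 : ℤ) • z) {v t s : V}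
    (e1 : S.ρ (τ * τ * (τ * τ)) v - v = (4 : ℤ) • t)
    (e2 : S.ρ (τ * τ * (τ * τ)) (f v) - f v = (4 : ℤ) • s) :
    ∀ x ∈ S.Rb, ∀ y ∈ S.Rb, S.δ (f t) x y = S.δ s x y := by
  intro x hx y hy
  obtain ⟨w', hw⟩ := hf.com τ hτ hτ' v
  have e : f t = s + S.q w' := by
    apply h.htf4
    rw [smul_add, ← hw, ← e2, ← hf.smul]
    have e3 : S.ρ (τ * τ * (τ * τ)) v = v + (4 : ℤ) • t := by rw [← e1]; abel
    rw [e3, hf.add]
    abel
  rw [e, h.add _ _ x hx y hy, h.im _ x hx y hy, add_zero]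

include h h' in
theorem claim1 {f : V → V} (hf : Cw S f) (x' : V') :
    ∀ x ∈ S.Rb, ∀ y ∈ S.Rb, S.δ (f (S.q x')) x y = 0 := by
  intro β3 hβ3 β4 hβ4
  by_cases n34 : β3 = β4
  · subst n34
    exact h.dxx _ hβ3
  obtain ⟨β1, hβ1, n13, n14, -⟩ := h.five (x1 := β3) (x2 := β4) (x3 := β4) (x4 := β4) (x5 := β4)
  obtain ⟨β2, hβ2, n21, n23, n24, -⟩ := h.five (x1 := β1) (x2 := β3) (x3 := β4) (x4 := β4) (x5 := β4)
  obtain ⟨β5, hβ5, n51, n52, n53, n54, -⟩ := h.five (x1 := β1) (x2 := β2) (x3 := β3) (x4 := β4)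
    (x5 := β4)
  obtain ⟨τ, t1, t2, t3, t4⟩ := fourth h h' hβ1 hβ2 hβ3 hβ4 n21.symm n34 n13 n14 n23 n24
  obtain ⟨y, hy⟩ := t4 x'
  obtain ⟨s, hs, hs'⟩ := t3 (f (S.q x'))
  have e1 : S.ρ (τ * τ * (τ * τ)) (S.q x') - S.q x' = (4 : ℤ) • ((2 : ℤ) • y) := by
    rw [← h.qe, ← map_sub, hy, map_zsmul, h.qp]
  have e2 := comm4 h hf t1 t2 e1 hs
  have e3 := hs' β1 hβ1 β5 hβ5
  rw [← e2 β1 hβ1 β5 hβ5, hf.smul, h.dtwo _ hβ1 hβ5, pr_left n21.symm n51 n52,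
    pr_out n13 n14 n53 n54] at e3
  rw [mul_one, mul_zero, add_zero] at e3
  exact e3.symm

include h in
theorem zero_or (v : V) (x y : Ω) : S.δ v x y = 0 ∨ S.δ v x y = 1 := zcases _

include h in
/-- The class of a pair. -/
theorem pair1 {β β' : Ω} (hβ : β ∈ S.Rb) (hβ' : β' ∈ S.Rb) (hne : β ≠ β') {v : V}
    (hv : S.δ v β β' = 1) : ∃ w : V, ∀ x ∈ S.Rb, ∀ y ∈ S.Rb, S.δ w x y = pr β β' x y := by
  obtain ⟨τ, hτ⟩ := h.sw β hβ β' hβ' hne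
  refine ⟨S.ρ τ v - v, fun x hx y hy => ?_⟩
  rw [h.dsub _ _ hx hy, hτ v x hx y hy]
  have out : ∀ z, z ≠ β → z ≠ β' → Equiv.swap β β' z = z := fun z h1 h2 =>
    Equiv.swap_apply_of_ne_of_ne h1 h2
  have tri : ∀ z ∈ S.Rb, S.δ v β z + S.δ v β' z = 1 := by
    intro z hz
    have h1 := h.tr v β' hβ' β hβ z hz
    have h2 := h.dsym v hβ' hβ
    rw [h2, hv] at h1
    rw [← h1]
    have : ∀ a : ZMod 2, a + (1 + a) = 1 := by decide
    exact this _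
  by_cases x1 : x = β
  · subst x1
    rw [Equiv.swap_apply_left]
    by_cases y1 : y = x
    · subst y1
      rw [Equiv.swap_apply_left, h.dxx _ hβ', h.dxx _ hx]
      unfold pr
      rw [zz, zz]
    by_cases y2 : y = β'
    · subst y2
      rw [Equiv.swap_apply_right, h.dsym v hy hx, zz, pr_in hne]
    · rw [out y y1 y2, pr_left hne y1 y2, add_comm]
      exact tri y hy
  by_cases x2 : x = β'
  · subst x2
    rw [Equiv.swap_apply_right]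
    by_cases y1 : y = β
    · subst y1
      rw [Equiv.swap_apply_left, h.dsym v hy hx, zz]
      unfold pr
      rw [add_comm (ee y x), add_comm (ee y y), ee_self, ee_self, ee_ne hne, ee_ne hne.symm]
      decide
    by_cases y2 : y = x
    · subst y2
      rw [Equiv.swap_apply_right, h.dxx _ hβ, h.dxx _ hx]
      unfold pr
      rw [zz, zz]
    · rw [out y y1 y2, pr_right hne y1 y2]
      exact tri y hy
  · rw [out x x1 x2]
    by_cases y1 : y = β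
    · subst y1
      rw [Equiv.swap_apply_left, h.dsym v hx hβ', h.dsym v hx hy]
      have e : pr y β' x y = 1 := by
        unfold pr
        rw [ee_ne x1, ee_ne x2, ee_self, ee_ne hne]
        decide
      rw [e, add_comm]
      exact tri x hx
    by_cases y2 : y = β'
    · subst y2
      rw [Equiv.swap_apply_right, h.dsym v hx hβ, h.dsym v hx hy]
      have e : pr β y x y = 1 := by
        unfold pr
        rw [ee_ne x1, ee_ne x2, ee_self, ee_ne hne.symm]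
        decide
      rw [e]
      exact tri x hx
    · rw [out y y1 y2, zz, pr_out x1 x2 y1 y2]

include h in
theorem pairs {v0 : V} {x0 y0 : Ω} (hx0 : x0 ∈ S.Rb) (hy0 : y0 ∈ S.Rb) (h0 : S.δ v0 x0 y0 = 1)
    {β β' : Ω} (hβ : β ∈ S.Rb) (hβ' : β' ∈ S.Rb) (hne : β ≠ β') :
    ∃ w : V, ∀ x ∈ S.Rb, ∀ y ∈ S.Rb, S.δ w x y = pr β β' x y := by
  rcases zero_or h v0 β β' with e | e
  · -- a third root
    obtain ⟨γ, hγ, hγ1⟩ : ∃ γ ∈ S.Rb, S.δ v0 β γ = 1 := by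
      by_contra hcon
      push Not at hcon
      have k : ∀ γ ∈ S.Rb, S.δ v0 β γ = 0 := fun γ hγ =>
        (zero_or h v0 β γ).resolve_right (hcon γ hγ)
      have h1 := h.tr v0 x0 hx0 β hβ y0 hy0
      rw [h.dsym v0 hx0 hβ, k x0 hx0, k y0 hy0, h0] at h1
      exact absurd h1 (by decide)
    have hγβ : β ≠ γ := by
      rintro rfl
      rw [h.dxx _ hβ] at hγ1
      exact zero_ne_one hγ1
    have hγβ' : β' ≠ γ := by
      rintro rfl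
      rw [e] at hγ1
      exact zero_ne_one hγ1
    have hγ2 : S.δ v0 β' γ = 1 := by
      have h1 := h.tr v0 β' hβ' β hβ γ hγ
      rw [h.dsym v0 hβ' hβ, e, hγ1, zero_add] at h1
      exact h1.symm
    obtain ⟨w1, hw1⟩ := pair1 h hβ hγ hγβ hγ1
    obtain ⟨w2, hw2⟩ := pair1 h hβ' hγ hγβ' hγ2
    refine ⟨w1 + w2, fun x hx y hy => ?_⟩
    rw [h.add _ _ x hx y hy, hw1 x hx y hy, hw2 x hx y hy]
    unfold pr
    have : ∀ a b c d e f : ZMod 2, a + b + (c + d) + (e + b + (f + d)) = a + e + (c + f) := by decide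
    exact this _ _ _ _ _ _
  · exact pair1 h hβ hβ' hne e

include h h' in
/-- The values at the class of a pair. -/
theorem fpair {v0 : V} {x0 y0 : Ω} (hx0 : x0 ∈ S.Rb) (hy0 : y0 ∈ S.Rb) (h0 : S.δ v0 x0 y0 = 1)
    {f : V → V} (hf : Cw S f) {β1 β2 β3 β4 β5 : Ω} (hβ1 : β1 ∈ S.Rb)
    (hβ2 : β2 ∈ S.Rb) (hβ3 : β3 ∈ S.Rb) (hβ4 : β4 ∈ S.Rb) (hβ5 : β5 ∈ S.Rb) (n12 : β1 ≠ β2)
    (n34 : β3 ≠ β4) (n13 : β1 ≠ β3) (n14 : β1 ≠ β4) (n23 : β2 ≠ β3) (n24 : β2 ≠ β4)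
    (n51 : β5 ≠ β1) (n52 : β5 ≠ β2) (n53 : β5 ≠ β3) (n54 : β5 ≠ β4) {v : V}
    (hv : ∀ x ∈ S.Rb, ∀ y ∈ S.Rb, S.δ v x y = pr β3 β4 x y) :
    ∃ a c : ZMod 2, ∀ x ∈ S.Rb, ∀ y ∈ S.Rb,
      S.δ (f v) x y = a * pr β1 β2 x y + c * pr β3 β4 x y := by
  obtain ⟨w, hw⟩ := pairs h hx0 hy0 h0 hβ1 hβ5 n51.symm
  obtain ⟨τ, t1, t2, t3, t4⟩ := fourth h h' hβ1 hβ2 hβ3 hβ4 n12 n34 n13 n14 n23 n24
  obtain ⟨t, ht, htt⟩ := t3 w
  obtain ⟨s, hs, hss⟩ := t3 (f w)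
  have hts := comm4 h hf t1 t2 ht hs
  obtain ⟨x', hx'⟩ := h.ker (v - t) (fun x hx y hy => by
    rw [h.dsub _ _ hx hy, hv x hx y hy, htt x hx y hy, hw β3 hβ3 β4 hβ4, hw β1 hβ1 β2 hβ2,
      pr_out n13.symm n53.symm n14.symm n54.symm, pr_left n51.symm n12.symm n52.symm]
    have : ∀ a b : ZMod 2, a + (0 * b + 1 * a) = 0 := by decide
    exact this _ _)
  refine ⟨S.δ (f w) β3 β4, S.δ (f w) β1 β2, fun x hx y hy => ?_⟩
  have e : v = t + S.q x' := by rw [hx']; abel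
  rw [e, hf.add, h.add _ _ x hx y hy, claim1 h h' hf x' x hx y hy, add_zero,
    hts x hx y hy, hss x hx y hy]

include h h' in
theorem fpair' {v0 : V} {x0 y0 : Ω} (hx0 : x0 ∈ S.Rb) (hy0 : y0 ∈ S.Rb) (h0 : S.δ v0 x0 y0 = 1)
    {f : V → V} (hf : Cw S f) {β3 β4 : Ω} (hβ3 : β3 ∈ S.Rb) (hβ4 : β4 ∈ S.Rb)
    (n34 : β3 ≠ β4) : ∃ c : ZMod 2, ∀ v : V, (∀ x ∈ S.Rb, ∀ y ∈ S.Rb, S.δ v x y = pr β3 β4 x y) →
      ∀ x ∈ S.Rb, ∀ y ∈ S.Rb, S.δ (f v) x y = c * pr β3 β4 x y := by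
  obtain ⟨v, hv⟩ := pairs h hx0 hy0 h0 hβ3 hβ4 n34
  obtain ⟨β0, hβ0, n03, n04, -⟩ := h.five (x1 := β3) (x2 := β4) (x3 := β4) (x4 := β4) (x5 := β4)
  have hout : ∀ x ∈ S.Rb, ∀ y ∈ S.Rb, x ≠ β3 → x ≠ β4 → y ≠ β3 → y ≠ β4 → S.δ (f v) x y = 0 := by
    intro x hx y hy x3 x4 y3 y4
    by_cases hxy : x = y
    · subst hxy
      exact h.dxx _ hx
    obtain ⟨β1, hβ1, n13, n14, n1x, n1y, -⟩ := h.five (x1 := β3) (x2 := β4) (x3 := x) (x4 := y)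
      (x5 := y)
    obtain ⟨β2, hβ2, n23, n24, n2x, n2y, n21⟩ := h.five (x1 := β3) (x2 := β4) (x3 := x) (x4 := y)
      (x5 := β1)
    obtain ⟨a, c, hac⟩ := fpair h h' hx0 hy0 h0 hf hβ1 hβ2 hβ3 hβ4 hx n21.symm n34 n13 n14
      n23 n24 n1x.symm n2x.symm x3 x4 hv
    rw [hac x hx y hy, pr_out n1x.symm n2x.symm n1y.symm n2y.symm, pr_out x3 x4 y3 y4, mul_zero,
      mul_zero, add_zero]
  have hin : S.δ (f v) β3 β4 = 0 := by
    obtain ⟨β1, hβ1, n13, n14, n10, -⟩ := h.five (x1 := β3) (x2 := β4) (x3 := β0) (x4 := β0)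
      (x5 := β0)
    obtain ⟨β2, hβ2, n23, n24, n20, n21, -⟩ := h.five (x1 := β3) (x2 := β4) (x3 := β0) (x4 := β1)
      (x5 := β1)
    obtain ⟨a, c, hac⟩ := fpair h h' hx0 hy0 h0 hf hβ1 hβ2 hβ3 hβ4 hβ0 n21.symm n34 n13 n14
      n23 n24 n10.symm n20.symm n03 n04 hv
    rw [hac β3 hβ3 β4 hβ4, pr_out n13.symm n23.symm n14.symm n24.symm, pr_in n34, mul_zero,
      mul_zero, add_zero]
  have hall : ∀ x ∈ S.Rb, S.δ (f v) x β0 = S.δ (f v) β3 β0 * (ee β3 x + ee β4 x) := by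
    intro x hx
    by_cases x3 : x = β3
    · subst x3
      rw [ee_self, ee_ne n34, add_zero, mul_one]
    by_cases x4 : x = β4
    · subst x4
      rw [ee_self, ee_ne x3, zero_add, mul_one, ← h.tr _ _ hβ3 _ hx _ hβ0, hin, zero_add]
    · rw [ee_ne x3, ee_ne x4, add_zero, mul_zero]
      exact hout x hx β0 hβ0 x3 x4 n03 n04
  refine ⟨S.δ (f v) β3 β0, fun w hw x hx y hy => ?_⟩
  obtain ⟨x', hx'⟩ := h.ker (w - v) (fun x hx y hy => by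
    rw [h.dsub _ _ hx hy, hv x hx y hy, hw x hx y hy, zz])
  have e : w = v + S.q x' := by rw [hx']; abel
  rw [e, hf.add, h.add _ _ x hx y hy, claim1 h h' hf x' x hx y hy, add_zero,
    ← h.tr _ _ hx _ hβ0 _ hy, h.dsym _ hβ0 hy, hall x hx, hall y hy]
  unfold pr
  ring

include h h' in
/-- The scalar on one side. -/
theorem claim2 {f : V → V} (hf : Cw S f) : ∃ ε : ZMod 2, ∀ v, ∀ x ∈ S.Rb, ∀ y ∈ S.Rb,
    S.δ (f v) x y = ε * S.δ v x y := by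
  by_cases hex : ∃ v, ∃ x ∈ S.Rb, ∃ y ∈ S.Rb, S.δ v x y = 1
  · obtain ⟨v0, x0, hx0, y0, hy0, h0⟩ := hex
    choose c hc using fun (β3 : Ω) (hβ3 : β3 ∈ S.Rb) (β4 : Ω) (hβ4 : β4 ∈ S.Rb) (n : β3 ≠ β4) =>
      fpair' h h' hx0 hy0 h0 hf hβ3 hβ4 n
    -- the values at a disjoint pair
    have key : ∀ (β1 : Ω) (hβ1 : β1 ∈ S.Rb) (β2 : Ω) (hβ2 : β2 ∈ S.Rb) (β3 : Ω) (hβ3 : β3 ∈ S.Rb)
        (β4 : Ω) (hβ4 : β4 ∈ S.Rb) (n12 : β1 ≠ β2) (n34 : β3 ≠ β4) (n13 : β1 ≠ β3) (n14 : β1 ≠ β4)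
        (n23 : β2 ≠ β3) (n24 : β2 ≠ β4) (v : V),
        S.δ (f v) β1 β2 = c β3 hβ3 β4 hβ4 n34 * S.δ v β1 β2 := by
      intro β1 hβ1 β2 hβ2 β3 hβ3 β4 hβ4 n12 n34 n13 n14 n23 n24 v
      obtain ⟨β5, hβ5, n51, n52, n53, n54, -⟩ := h.five (x1 := β1) (x2 := β2) (x3 := β3) (x4 := β4)
        (x5 := β4)
      obtain ⟨τ, t1, t2, t3, t4⟩ := fourth h h' hβ1 hβ2 hβ3 hβ4 n12 n34 n13 n14 n23 n24
      obtain ⟨t, ht, htt⟩ := t3 v
      obtain ⟨s, hs, hss⟩ := t3 (f v)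
      have hts := comm4 h hf t1 t2 ht hs
      obtain ⟨vA, hvA⟩ := pairs h hx0 hy0 h0 hβ1 hβ2 n12
      obtain ⟨vB, hvB⟩ := pairs h hx0 hy0 h0 hβ3 hβ4 n34
      have hA := hc β1 hβ1 β2 hβ2 n12 vA hvA
      have hB := hc β3 hβ3 β4 hβ4 n34 vB hvB
      -- the class with the same function as `t`
      have hz : ∀ (a : ZMod 2) (w w' : V), (∀ x ∈ S.Rb, ∀ y ∈ S.Rb, S.δ w' x y = 0) →
          ∃ u : V, (∀ x ∈ S.Rb, ∀ y ∈ S.Rb, S.δ u x y = a * S.δ w x y) ∧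
            ∀ x ∈ S.Rb, ∀ y ∈ S.Rb, S.δ (f u) x y = a * S.δ (f w) x y := by
        intro a w w' hw'
        rcases zcases a with e | e
        · refine ⟨S.q (S.p w), fun x hx y hy => ?_, fun x hx y hy => ?_⟩
          · rw [h.im _ x hx y hy, e, zero_mul]
          · rw [claim1 h h' hf _ x hx y hy, e, zero_mul]
        · exact ⟨w, fun x hx y hy => by rw [e, one_mul], fun x hx y hy => by rw [e, one_mul]⟩
      have hq0 : ∀ x ∈ S.Rb, ∀ y ∈ S.Rb, S.δ (S.q (S.p v)) x y = 0 := fun x hx y hy =>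
        h.im _ x hx y hy
      obtain ⟨uA, k1, k2⟩ := hz (S.δ v β3 β4) vA _ hq0
      obtain ⟨uB, k3, k4⟩ := hz (S.δ v β1 β2) vB _ hq0
      obtain ⟨x', hx'⟩ := h.ker (t - (uA + uB)) (fun x hx y hy => by
        rw [h.dsub _ _ hx hy, h.add _ _ x hx y hy, htt x hx y hy, k1 x hx y hy, k3 x hx y hy,
          hvA x hx y hy, hvB x hx y hy, zz])
      have e : t = uA + uB + S.q x' := by rw [hx']; abel
      have e1 := hss β3 hβ3 β5 hβ5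
      rw [← hts β3 hβ3 β5 hβ5, e, hf.add, hf.add, h.add _ _ _ hβ3 _ hβ5, claim1 h h' hf x' _ hβ3 _ hβ5,
        add_zero, h.add _ _ _ hβ3 _ hβ5, k2 _ hβ3 _ hβ5, k4 _ hβ3 _ hβ5, hA _ hβ3 _ hβ5,
        hB _ hβ3 _ hβ5, pr_left n34 n53 n54, pr_out n13.symm n23.symm n51 n52] at e1
      rw [mul_zero, mul_zero, mul_zero, mul_one, mul_one, zero_add, zero_add] at e1
      rw [← e1, mul_comm]
    -- all the scalars are the same
    have same : ∀ (x : Ω) (hx : x ∈ S.Rb) (y : Ω) (hy : y ∈ S.Rb) (z : Ω) (hz : z ∈ S.Rb) (w : Ω)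
        (hw : w ∈ S.Rb) (n1 : x ≠ y) (n2 : z ≠ w), c x hx y hy n1 = c z hz w hw n2 := by
      intro x hx y hy z hz w hw n1 n2
      obtain ⟨β1, hβ1, m1, m2, m3, m4, -⟩ := h.five (x1 := x) (x2 := y) (x3 := z) (x4 := w)
        (x5 := w)
      obtain ⟨β2, hβ2, r1, r2, r3, r4, r5⟩ := h.five (x1 := x) (x2 := y) (x3 := z) (x4 := w)
        (x5 := β1)
      obtain ⟨v, hv⟩ := pairs h hx0 hy0 h0 hβ1 hx m1
      have e1 := key β1 hβ1 β2 hβ2 x hx y hy r5.symm n1 m1 m2 r1 r2 v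
      have e2 := key β1 hβ1 β2 hβ2 z hz w hw r5.symm n2 m3 m4 r3 r4 v
      rw [hv β1 hβ1 β2 hβ2, pr_left m1 r5 r1, mul_one] at e1 e2
      rw [← e1, e2]
    have hxy0 : x0 ≠ y0 := by
      rintro rfl
      rw [h.dxx _ hx0] at h0
      exact zero_ne_one h0
    refine ⟨c x0 hx0 y0 hy0 hxy0, fun v x hx y hy => ?_⟩
    by_cases hxy : x = y
    · subst hxy
      rw [h.dxx _ hx, h.dxx _ hx, mul_zero]
    obtain ⟨β3, hβ3, m1, m2, -⟩ := h.five (x1 := x) (x2 := y) (x3 := y) (x4 := y) (x5 := y)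
    obtain ⟨β4, hβ4, r1, r2, r3, -⟩ := h.five (x1 := x) (x2 := y) (x3 := β3) (x4 := y) (x5 := y)
    rw [key x hx y hy β3 hβ3 β4 hβ4 hxy r3.symm m1.symm r1.symm m2.symm r2.symm v,
      same β3 hβ3 β4 hβ4 x0 hx0 y0 hy0 r3.symm hxy0]
  · push Not at hex
    refine ⟨0, fun v x hx y hy => ?_⟩
    obtain ⟨v', rfl⟩ := h.ker v (fun x hx y hy => (zero_or h v x y).resolve_right (hex v x hx y hy))
    rw [claim1 h h' hf v' x hx y hy, zero_mul]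

end main

end Pool.Agent.K9h16.ET
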