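import Pool.Agent.K9h16.MT.Abs
import Pool.Agent.K9h16.PT.Cmb
import Pool.Agent.K9h16.PT.Sg

/-!
Endomorphisms which commute with an open subgroup: the algebra.
-/

set_option autoImplicit false
set_option linter.all false

open scoped Classical

namespace Pool.Agent.K9h16.ET

open Pool.Agent.K9h16.PT Pool.Agent.K9h16.QT Pool.Agent.K9h16.MT

section fix

variable {G V : Type} [Group G] [AddCommGroup V] {ρ : G → (V →+ V)} {H : Subgroup G}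
  (rho_one : ∀ v, ρ 1 v = v) (rho_mul : ∀ g h v, ρ (g * h) v = ρ g (ρ h v))
  (htf : ∀ v : V, (2 : ℤ) • v = 0 → v = 0)
  (hsep : ∀ v : V, (∀ j : ℕ, ∃ w, v = (2 : ℤ) ^ j • w) → v = 0) (hH : H.Normal)

include rho_one rho_mul htf hsep hH in
/-- The squares of the elements which act trivially modulo two commute with the endomorphisms. -/
theorem fix_sq (hfin : H.FiniteIndex) {u : G} (hu : ∀ v, ∃ w, ρ u v - v = (2 : ℤ) • w)
    {f : V → V} (hf : f ∈ Eqv ρ ρ H) (x : V) : f (ρ (u * u) x) = ρ (u * u) (f x) := by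
  have htf4 : ∀ v : V, (4 : ℤ) • v = 0 → v = 0 := fun v h => htf _ (htf _ (by
    rw [smul_smul]
    exact h))
  have hu' : ∀ v, ∃ w, ρ u⁻¹ v - v = (2 : ℤ) • w := by
    intro v
    obtain ⟨w, hw⟩ := hu v
    refine ⟨-ρ u⁻¹ w, ?_⟩
    rw [smul_neg, ← map_zsmul, ← hw, map_sub, ← rho_mul, inv_mul_cancel, rho_one]
    abel
  have hsq : ∀ g : G, (∀ v, ∃ w, ρ g v - v = (2 : ℤ) • w) →
      ∀ v, ∃ w, ρ (g * g) v - v = (4 : ℤ) • w := by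
    intro g hg v
    obtain ⟨y, hy⟩ := hg v
    obtain ⟨z, hz⟩ := hg y
    have e1 : ρ g v = v + (2 : ℤ) • y := by rw [← hy]; abel
    have e2 : ρ g y = y + (2 : ℤ) • z := by rw [← hz]; abel
    refine ⟨y + z, ?_⟩
    rw [rho_mul, e1, map_add, map_zsmul, e1, e2]
    module
  have hu2 := hsq u hu
  have hu2' := hsq u⁻¹ hu'
  have key := fin_one (V := Eqv ρ ρ H) (ract (H := H) rho_mul rho_one rho_mul hH) (g := u * u)
    (fun v => by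
      apply Subtype.ext
      funext x
      show ρ 1 (v.1 (ρ 1⁻¹ x)) = v.1 x
      rw [rho_one, inv_one, rho_one])
    (fun g h v => by
      apply Subtype.ext
      funext x
      show ρ (g * h) (v.1 (ρ (g * h)⁻¹ x)) = ρ g (ρ h (v.1 (ρ h⁻¹ (ρ g⁻¹ x))))
      rw [rho_mul, mul_inv_rev, rho_mul])
    (fun v hv => by
      apply Subtype.ext
      funext x
      exact htf _ (congrFun (congrArg Subtype.val hv) x))
    (fun v hv => by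
      apply Subtype.ext
      funext x
      refine hsep _ (fun j => ?_)
      obtain ⟨w, hw⟩ := hv j
      exact ⟨w.1 x, congrFun (congrArg Subtype.val hw) x⟩)
    (fun v => by
      have h1 : ∀ x, ∃ y, ρ (u * u) (v.1 (ρ (u * u)⁻¹ x)) - v.1 x = (4 : ℤ) • y := by
        intro x
        obtain ⟨y, hy⟩ : ∃ y, ρ (u * u)⁻¹ x - x = (4 : ℤ) • y := by
          rw [mul_inv_rev]
          exact hu2' x
        obtain ⟨w, hw⟩ := hu2 (v.1 x)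
        have e1 : ρ (u * u)⁻¹ x = x + (4 : ℤ) • y := by rw [← hy]; abel
        have e2 : ρ (u * u) (v.1 x) = v.1 x + (4 : ℤ) • w := by rw [← hw]; abel
        refine ⟨w + ρ (u * u) (v.1 y), ?_⟩
        rw [e1, v.2.1, eqv_smul v.2, map_add, map_zsmul, e2, smul_add]
        abel
      choose w hw using h1
      obtain ⟨d, hd⟩ : ∃ d, d = ract (H := H) rho_mul rho_one rho_mul hH (u * u) v - v := ⟨_, rfl⟩
      have hdw : ∀ x, d.1 x = (4 : ℤ) • w x := fun x => by rw [hd]; exact hw x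
      refine ⟨⟨w, ⟨fun x y => ?_, fun g hg x => ?_⟩⟩, ?_⟩
      · apply eq_of_sub_eq_zero
        apply htf4
        rw [smul_sub, smul_add, ← hdw, ← hdw, ← hdw, d.2.1, sub_self]
      · apply eq_of_sub_eq_zero
        apply htf4
        rw [smul_sub, ← hdw, ← map_zsmul, ← hdw, d.2.2 g hg, sub_self]
      · rw [← hd]
        apply Subtype.ext
        funext x
        rw [hdw]
        show (4 : ℤ) • w x = (2 : ℤ) ^ 2 • w x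
        norm_num)
    (m := H.index) (Nat.pos_of_ne_zero hfin.index_ne_zero)
    (fun v => by
      apply Subtype.ext
      funext x
      show ρ ((u * u) ^ H.index) (v.1 (ρ ((u * u) ^ H.index)⁻¹ x)) = v.1 x
      have h3 : (u * u) ^ H.index ∈ H := Subgroup.pow_index_mem H _
      rw [v.2.2 _ (H.inv_mem h3), ← rho_mul, mul_inv_cancel, rho_one])
    ⟨f, hf⟩
  have h5 : ρ (u * u) (f (ρ (u * u)⁻¹ (ρ (u * u) x))) = f (ρ (u * u) x) :=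
    congrFun (congrArg Subtype.val key) (ρ (u * u) x)
  rw [← rho_mul, inv_mul_cancel, rho_one] at h5
  exact h5.symm

end fix

/-- The differences of the function of a pair. -/
noncomputable def pr {Ω : Type} (u v x y : Ω) : ZMod 2 := ee u x + ee v x + (ee u y + ee v y)

/-- Two groups with maps between them, and functions. -/
structure Sys (G V V' Ω : Type) [Group G] [AddCommGroup V] [AddCommGroup V'] : Type where
  ρ : G → (V →+ V)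
  ρ' : G → (V' →+ V')
  q : V' →+ V
  p : V →+ V'
  Rb : Set Ω
  Rd : Set Ω
  δ : V → Ω → Ω → ZMod 2
  δ' : V' → Ω → Ω → ZMod 2

/-- The other side. -/
def Sys.swap {G V V' Ω : Type} [Group G] [AddCommGroup V] [AddCommGroup V'] (S : Sys G V V' Ω) :
    Sys G V' V Ω := ⟨S.ρ', S.ρ, S.p, S.q, S.Rd, S.Rb, S.δ', S.δ⟩

/-- The properties of one side. -/
structure Ok {G V V' Ω : Type} [Group G] [AddCommGroup V] [AddCommGroup V'] (S : Sys G V V' Ω) :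
    Prop where
  one : ∀ v, S.ρ 1 v = v
  mul : ∀ g h v, S.ρ (g * h) v = S.ρ g (S.ρ h v)
  htf : ∀ v : V, (2 : ℤ) • v = 0 → v = 0
  hsep : ∀ v : V, (∀ j : ℕ, ∃ w, v = (2 : ℤ) ^ j • w) → v = 0
  qp : ∀ v, S.q (S.p v) = (2 : ℤ) • v
  qe : ∀ g v', S.q (S.ρ' g v') = S.ρ g (S.q v')
  add : ∀ v w, ∀ x ∈ S.Rb, ∀ y ∈ S.Rb, S.δ (v + w) x y = S.δ v x y + S.δ w x y
  tr : ∀ v, ∀ x ∈ S.Rb, ∀ y ∈ S.Rb, ∀ z ∈ S.Rb, S.δ v x y + S.δ v y z = S.δ v x z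
  ker : ∀ v, (∀ x ∈ S.Rb, ∀ y ∈ S.Rb, S.δ v x y = 0) → ∃ v', S.q v' = v
  im : ∀ v', ∀ x ∈ S.Rb, ∀ y ∈ S.Rb, S.δ (S.q v') x y = 0
  sw : ∀ β ∈ S.Rb, ∀ β' ∈ S.Rb, β ≠ β' → ∃ τ, ∀ v, ∀ x ∈ S.Rb, ∀ y ∈ S.Rb,
    S.δ (S.ρ τ v) x y = S.δ v (Equiv.swap β β' x) (Equiv.swap β β' y)
  tyA : ∀ β1 ∈ S.Rb, ∀ β2 ∈ S.Rb, ∀ β3 ∈ S.Rb, ∀ β4 ∈ S.Rb, ∀ e1 ∈ S.Rd, ∀ e2 ∈ S.Rd, ∀ e3 ∈ S.Rd,
    β1 ≠ β2 → β3 ≠ β4 → e1 ≠ e2 → e2 ≠ e3 → ∃ τ,
      (∀ v, ∃ v', S.ρ τ v - v = S.q v' ∧ ∀ x ∈ S.Rd, ∀ y ∈ S.Rd,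
        S.δ' v' x y = S.δ v β1 β2 * pr e1 e2 x y + S.δ v β3 β4 * pr e2 e3 x y) ∧
      (∀ v', ∃ v, S.ρ' τ v' - v' = S.p v ∧ ∀ x ∈ S.Rb, ∀ y ∈ S.Rb,
        S.δ v x y = S.δ' v' e1 e2 * pr β1 β2 x y + S.δ' v' e2 e3 * pr β3 β4 x y)
  tyS : ∀ β1 ∈ S.Rb, ∀ β2 ∈ S.Rb, ∀ e1 ∈ S.Rd, ∀ e2 ∈ S.Rd, β1 ≠ β2 → e1 ≠ e2 → ∃ τ,
      (∀ v, ∃ v', S.ρ τ v - v = S.q v' ∧ ∀ x ∈ S.Rd, ∀ y ∈ S.Rd,
        S.δ' v' x y = S.δ v β1 β2 * pr e1 e2 x y) ∧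
      (∀ v', ∃ v, S.ρ' τ v' - v' = S.p v)
  six : ∀ T : Finset Ω, T.card ≤ 5 → ∃ x ∈ S.Rb, x ∉ T

section main

variable {G V V' Ω : Type} [Group G] [AddCommGroup V] [AddCommGroup V'] {S : Sys G V V' Ω}

theorem pr_in {u v : Ω} (h : u ≠ v) : pr u v u v = 0 := by
  unfold pr
  rw [ee_self, ee_self, ee_ne h, ee_ne h.symm]
  decide

theorem pr_out {u v x y : Ω} (h1 : x ≠ u) (h2 : x ≠ v) (h3 : y ≠ u) (h4 : y ≠ v) :
    pr u v x y = 0 := by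
  unfold pr
  rw [ee_ne h1, ee_ne h2, ee_ne h3, ee_ne h4]
  decide

theorem pr_left {u v y : Ω} (h : u ≠ v) (h3 : y ≠ u) (h4 : y ≠ v) : pr u v u y = 1 := by
  unfold pr
  rw [ee_self, ee_ne h, ee_ne h3, ee_ne h4]
  decide

theorem pr_right {u v y : Ω} (h : u ≠ v) (h3 : y ≠ u) (h4 : y ≠ v) : pr u v v y = 1 := by
  unfold pr
  rw [ee_self, ee_ne h.symm, ee_ne h3, ee_ne h4]
  decide

theorem pr_mid {u v w : Ω} (h : u ≠ v) (h1 : u ≠ w) (h2 : v ≠ w) : pr u v v w = 1 := by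
  unfold pr
  rw [ee_self, ee_ne h.symm, ee_ne h1.symm, ee_ne h2.symm]
  decide

theorem pr_mid' {u v w : Ω} (h : u ≠ v) (h1 : u ≠ w) (h2 : v ≠ w) : pr v w u v = 1 := by
  unfold pr
  rw [ee_self, ee_ne h, ee_ne h1, ee_ne h2]
  decide

variable (h : Ok S)

include h

theorem Ok.dxx (v : V) {x : Ω} (hx : x ∈ S.Rb) : S.δ v x x = 0 := by
  have h1 := h.tr v x hx x hx x hx
  exact add_eq_left.1 h1

theorem Ok.dsym (v : V) {x y : Ω} (hx : x ∈ S.Rb) (hy : y ∈ S.Rb) : S.δ v x y = S.δ v y x := by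
  have h1 := h.tr v x hx y hy x hx
  rw [h.dxx v hx] at h1
  have : ∀ a b : ZMod 2, a + b = 0 → a = b := by decide
  exact this _ _ h1

theorem Ok.dsub (v w : V) {x y : Ω} (hx : x ∈ S.Rb) (hy : y ∈ S.Rb) :
    S.δ (v - w) x y = S.δ v x y + S.δ w x y := by
  have h1 := h.add (v - w) w x hx y hy
  rw [sub_add_cancel] at h1
  rw [h1, add_assoc, zz, add_zero]

theorem Ok.dtwo (v : V) {x y : Ω} (hx : x ∈ S.Rb) (hy : y ∈ S.Rb) :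
    S.δ ((2 : ℤ) • v) x y = 0 := by
  rw [← h.qp]
  exact h.im _ x hx y hy

theorem Ok.htf4 {v w : V} (e : (4 : ℤ) • v = (4 : ℤ) • w) : v = w := by
  apply eq_of_sub_eq_zero
  apply h.htf
  apply h.htf
  rw [smul_smul]
  have : ((2 : ℤ) * 2) = 4 := by norm_num
  rw [this, smul_sub, e, sub_self]

theorem Ok.five {x1 x2 x3 x4 x5 : Ω} : ∃ x ∈ S.Rb, x ≠ x1 ∧ x ≠ x2 ∧ x ≠ x3 ∧ x ≠ x4 ∧ x ≠ x5 := by
  obtain ⟨x, hx, hT⟩ := h.six {x1, x2, x3, x4, x5} (by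
    exact Finset.card_le_five)
  refine ⟨x, hx, ?_, ?_, ?_, ?_, ?_⟩ <;>
  · rintro rfl
    apply hT
    simp

/-- The fourth powers. -/
theorem fourth (h' : Ok S.swap) {β1 β2 β3 β4 : Ω} (hβ1 : β1 ∈ S.Rb) (hβ2 : β2 ∈ S.Rb)
    (hβ3 : β3 ∈ S.Rb) (hβ4 : β4 ∈ S.Rb) (n12 : β1 ≠ β2) (n34 : β3 ≠ β4) (n13 : β1 ≠ β3)
    (n14 : β1 ≠ β4) (n23 : β2 ≠ β3) (n24 : β2 ≠ β4) : ∃ τ : G,
      (∀ v, ∃ z, S.ρ (τ * τ) v - v = (2 : ℤ) • z) ∧
      (∀ v', ∃ z, S.ρ' (τ * τ) v' - v' = (2 : ℤ) • z) ∧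
      (∀ v, ∃ t, S.ρ (τ * τ * (τ * τ)) v - v = (4 : ℤ) • t ∧ ∀ x ∈ S.Rb, ∀ y ∈ S.Rb,
        S.δ t x y = S.δ v β3 β4 * pr β1 β2 x y + S.δ v β1 β2 * pr β3 β4 x y) ∧
      (∀ v', ∃ t, S.ρ' (τ * τ * (τ * τ)) v' - v' = (4 : ℤ) • S.p t) := by
  obtain ⟨e1, he1, -⟩ := h'.five (x1 := β1) (x2 := β1) (x3 := β1) (x4 := β1) (x5 := β1)
  obtain ⟨e2, he2, m12, -⟩ := h'.five (x1 := e1) (x2 := β1) (x3 := β1) (x4 := β1) (x5 := β1)
  obtain ⟨e3, he3, m13, m23, -⟩ := h'.five (x1 := e1) (x2 := e2) (x3 := β1) (x4 := β1) (x5 := β1)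
  obtain ⟨τ, fwd, bwd⟩ := h.tyA β1 hβ1 β2 hβ2 β3 hβ3 β4 hβ4 e1 he1 e2 he2 e3 he3 n12 n34 m12.symm
    m23.symm
  have qp := h.qp
  have pq : ∀ v', S.p (S.q v') = (2 : ℤ) • v' := h'.qp
  have pe : ∀ g v, S.p (S.ρ g v) = S.ρ' g (S.p v) := h'.qe
  have one2 : ∀ v, ∃ z, S.ρ (τ * τ) v - v = (2 : ℤ) • z ∧ ∀ x ∈ S.Rb, ∀ y ∈ S.Rb,
      S.δ z x y = S.δ v β3 β4 * pr β1 β2 x y + S.δ v β1 β2 * pr β3 β4 x y := by
    intro v
    obtain ⟨v', k1, k2⟩ := fwd v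
    obtain ⟨w, k3, k4⟩ := bwd v'
    refine ⟨w + S.q v', ?_, fun x hx y hy => ?_⟩
    · have e1 : S.ρ τ v = v + S.q v' := by rw [← k1]; abel
      have e2 : S.ρ' τ v' = v' + S.p w := by rw [← k3]; abel
      rw [h.mul, e1, map_add, e1, ← h.qe, e2, map_add, qp]
      module
    · rw [h.add _ _ x hx y hy, h.im _ x hx y hy, add_zero, k4 x hx y hy, k2 e1 he1 e2 he2,
        k2 e2 he2 e3 he3, pr_in m12.symm, pr_in m23.symm, pr_mid m12.symm m13.symm m23.symm,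
        pr_mid' m12.symm m13.symm m23.symm]
      ring
  have two2 : ∀ v', ∃ z, S.ρ' (τ * τ) v' - v' = (2 : ℤ) • z ∧ ∀ x ∈ S.Rd, ∀ y ∈ S.Rd,
      S.δ' z x y = 0 := by
    intro v'
    obtain ⟨w, k1, k2⟩ := bwd v'
    obtain ⟨w', k3, k4⟩ := fwd w
    refine ⟨w' + S.p w, ?_, fun x hx y hy => ?_⟩
    · have e1 : S.ρ' τ v' = v' + S.p w := by rw [← k1]; abel
      have e2 : S.ρ τ w = w + S.q w' := by rw [← k3]; abel
      have e3 : ∀ v, S.ρ' (τ * τ) v = S.ρ' τ (S.ρ' τ v) := fun v => h'.mul τ τ v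
      rw [e3, e1, map_add, e1, ← pe, e2, map_add, pq]
      module
    · have e4 : S.δ' (w' + S.p w) x y = S.δ' w' x y + S.δ' (S.p w) x y := h'.add _ _ x hx y hy
      have e5 : S.δ' (S.p w) x y = 0 := h'.im _ x hx y hy
      rw [e4, e5, add_zero, k4 x hx y hy, k2 β1 hβ1 β2 hβ2, k2 β3 hβ3 β4 hβ4, pr_in n12, pr_in n34,
        pr_out n13 n14 n23 n24, pr_out n13.symm n23.symm n14.symm n24.symm]
      ring
  refine ⟨τ, fun v => ?_, fun v' => ?_, fun v => ?_, fun v' => ?_⟩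
  · obtain ⟨z, hz, -⟩ := one2 v
    exact ⟨z, hz⟩
  · obtain ⟨z, hz, -⟩ := two2 v'
    exact ⟨z, hz⟩
  · obtain ⟨z, hz, hz'⟩ := one2 v
    obtain ⟨w, hw, hw'⟩ := one2 z
    refine ⟨z + w, ?_, fun x hx y hy => ?_⟩
    · have e1 : S.ρ (τ * τ) v = v + (2 : ℤ) • z := by rw [← hz]; abel
      have e2 : S.ρ (τ * τ) z = z + (2 : ℤ) • w := by rw [← hw]; abel
      rw [h.mul, e1, map_add, map_zsmul, e1, e2]
      module
    · rw [h.add _ _ x hx y hy, hz' x hx y hy, hw' x hx y hy, hz' β3 hβ3 β4 hβ4, hz' β1 hβ1 β2 hβ2,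
        pr_in n12, pr_in n34, pr_out n13.symm n23.symm n14.symm n24.symm, pr_out n13 n14 n23 n24]
      ring
  · obtain ⟨z, hz, hz'⟩ := two2 v'
    obtain ⟨w, hw, hw'⟩ := two2 z
    obtain ⟨t, ht⟩ : ∃ t, S.p t = z + w := h'.ker (z + w) (fun x hx y hy => by
      have e4 : S.δ' (z + w) x y = S.δ' z x y + S.δ' w x y := h'.add _ _ x hx y hy
      show S.δ' (z + w) x y = 0
      rw [e4, hz' x hx y hy, hw' x hx y hy, add_zero])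
    refine ⟨t, ?_⟩
    have e1 : S.ρ' (τ * τ) v' = v' + (2 : ℤ) • z := by rw [← hz]; abel
    have e2 : S.ρ' (τ * τ) z = z + (2 : ℤ) • w := by rw [← hw]; abel
    have e3 : S.ρ' (τ * τ * (τ * τ)) v' = S.ρ' (τ * τ) (S.ρ' (τ * τ) v') := h'.mul _ _ _
    rw [e3, ht, e1, map_add, map_zsmul, e1, e2]
    module

end main

end Pool.Agent.K9h16.ET
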