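import Pool.Agent.K9h16.ET.Two

/-!
The equivariant homomorphisms from a group, on which the Galois group acts trivially modulo two, to the
endomorphisms have scalar values.
-/

set_option autoImplicit false
set_option linter.all false

open scoped Classical

namespace Pool.Agent.K9h16.ET

open Pool.Agent.K9h16.PT Pool.Agent.K9h16.QT Pool.Agent.K9h16.MT

section grp

variable {G V U : Type} [Group G] [AddCommGroup V] [AddCommGroup U] {ρ : G → (V →+ V)}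
  {a : G → (U →+ U)} {H : Subgroup G}
  (rho_one : ∀ v, ρ 1 v = v) (rho_mul : ∀ g h v, ρ (g * h) v = ρ g (ρ h v))
  (a_one : ∀ x, a 1 x = x) (a_mul : ∀ g h x, a (g * h) x = a g (a h x))
  (htf : ∀ v : V, (2 : ℤ) • v = 0 → v = 0)
  (hsep : ∀ v : V, (∀ j : ℕ, ∃ w, v = (2 : ℤ) ^ j • w) → v = 0) (hH : H.Normal)

include rho_one rho_mul a_one a_mul htf hsep hH in
/-- If an element acts trivially modulo two on the equivariant functions then its square acts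
trivially. -/
theorem eqv_fix2 (hfin : H.FiniteIndex) {g : G}
    (hg : ∀ f ∈ Eqv ρ a H, ∀ x, ∃ y, ρ g (f (a g⁻¹ x)) - f x = (2 : ℤ) • y)
    {f : U → V} (hf : f ∈ Eqv ρ a H) (x : U) : f (a (g * g) x) = ρ (g * g) (f x) := by
  have htfE : ∀ v : Eqv ρ a H, (2 : ℤ) • v = 0 → v = 0 := fun v hv => by
    apply Subtype.ext
    funext x
    exact htf _ (congrFun (congrArg Subtype.val hv) x)
  have hmulE : ∀ (g h : G) (v : Eqv ρ a H), ract (H := H) rho_mul a_one a_mul hH (g * h) v =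
      ract (H := H) rho_mul a_one a_mul hH g (ract (H := H) rho_mul a_one a_mul hH h v) := by
    intro g h v
    apply Subtype.ext
    funext x
    show ρ (g * h) (v.1 (a (g * h)⁻¹ x)) = ρ g (ρ h (v.1 (a h⁻¹ (a g⁻¹ x))))
    rw [rho_mul, mul_inv_rev, a_mul]
  have hc1 : Cg 1 (ract (H := H) rho_mul a_one a_mul hH g) := by
    intro v
    choose w hw using hg v.1 v.2
    obtain ⟨d, hd⟩ : ∃ d, d = ract (H := H) rho_mul a_one a_mul hH g v - v := ⟨_, rfl⟩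
    have hdw : ∀ x, d.1 x = (2 : ℤ) • w x := fun x => by rw [hd]; exact hw x
    refine ⟨⟨w, ⟨fun x y => ?_, fun t ht x => ?_⟩⟩, ?_⟩
    · apply eq_of_sub_eq_zero
      apply htf
      rw [smul_sub, smul_add, ← hdw, ← hdw, ← hdw, d.2.1, sub_self]
    · apply eq_of_sub_eq_zero
      apply htf
      rw [smul_sub, ← hdw, ← map_zsmul, ← hdw, d.2.2 t ht, sub_self]
    · rw [← hd]
      apply Subtype.ext
      funext x
      rw [hdw, pow_one]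
      rfl
  have hc2 : Cg 2 (ract (H := H) rho_mul a_one a_mul hH (g * g)) := fun v => by
    obtain ⟨w, hw⟩ := hc1.sq htfE le_rfl v
    exact ⟨w, by rw [← hw, hmulE]; rfl⟩
  have key := fin_one (V := Eqv ρ a H) (ract (H := H) rho_mul a_one a_mul hH) (g := g * g)
    (fun v => by
      apply Subtype.ext
      funext x
      show ρ 1 (v.1 (a 1⁻¹ x)) = v.1 x
      rw [rho_one, inv_one, a_one])
    hmulE htfE
    (fun v hv => by
      apply Subtype.ext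
      funext x
      refine hsep _ (fun j => ?_)
      obtain ⟨w, hw⟩ := hv j
      exact ⟨w.1 x, congrFun (congrArg Subtype.val hw) x⟩)
    hc2 (m := H.index) (Nat.pos_of_ne_zero hfin.index_ne_zero)
    (fun v => by
      apply Subtype.ext
      funext x
      show ρ ((g * g) ^ H.index) (v.1 (a ((g * g) ^ H.index)⁻¹ x)) = v.1 x
      have h3 : (g * g) ^ H.index ∈ H := Subgroup.pow_index_mem H _
      rw [v.2.2 _ (H.inv_mem h3), ← rho_mul, mul_inv_cancel, rho_one])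
    ⟨f, hf⟩
  have h5 : ρ (g * g) (f (a (g * g)⁻¹ (a (g * g) x))) = f (a (g * g) x) :=
    congrFun (congrArg Subtype.val key) (a (g * g) x)
  rw [← a_mul, inv_mul_cancel, a_one] at h5
  exact h5.symm

/-- The conjugation. -/
def cc (ρ : G → (V →+ V)) (g : G) : (V →+ V) →+ (V →+ V) where
  toFun φ := (ρ g).comp (φ.comp (ρ g⁻¹))
  map_zero' := by
    ext v
    show ρ g ((0 : V →+ V) (ρ g⁻¹ v)) = 0
    rw [AddMonoidHom.zero_apply, map_zero]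
  map_add' φ ψ := by
    ext v
    exact map_add (ρ g) (φ (ρ g⁻¹ v)) (ψ (ρ g⁻¹ v))

theorem cc_apply (g : G) (φ : V →+ V) (v : V) : cc ρ g φ v = ρ g (φ (ρ g⁻¹ v)) := rfl

include rho_one in
theorem cc_one (φ : V →+ V) : cc ρ 1 φ = φ := by
  ext v
  rw [cc_apply, rho_one, inv_one, rho_one]

include rho_mul in
theorem cc_mul (g h : G) (φ : V →+ V) : cc ρ (g * h) φ = cc ρ g (cc ρ h φ) := by
  ext v
  rw [cc_apply, cc_apply, cc_apply, rho_mul, mul_inv_rev, rho_mul]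

include htf in
theorem e_htf (φ : V →+ V) (h : (2 : ℤ) • φ = 0) : φ = 0 := by
  ext v
  exact htf _ (DFunLike.congr_fun h v)

include hsep in
theorem e_hsep (φ : V →+ V) (h : ∀ j : ℕ, ∃ ψ, φ = (2 : ℤ) ^ j • ψ) : φ = 0 := by
  ext v
  refine hsep _ (fun j => ?_)
  obtain ⟨ψ, hψ⟩ := h j
  exact ⟨ψ v, DFunLike.congr_fun hψ v⟩

include htf in
/-- A function whose double is additive. -/
theorem halve {φ : V →+ V} (h : ∀ v, ∃ w, φ v = (2 : ℤ) • w) : ∃ ψ : V →+ V, φ = (2 : ℤ) • ψ := by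
  choose w hw using h
  have hadd : ∀ x y, w (x + y) = w x + w y := fun x y => by
    apply eq_of_sub_eq_zero
    apply htf
    rw [smul_sub, smul_add, ← hw, ← hw, ← hw, map_add, sub_self]
  refine ⟨AddMonoidHom.mk' w hadd, ?_⟩
  ext v
  exact hw v

include rho_one rho_mul htf in
theorem cc_mod {u : G} (hu : ∀ v, ∃ z, ρ u v - v = (2 : ℤ) • z) (φ : V →+ V) :
    ∃ ψ, cc ρ u φ - φ = (2 : ℤ) • ψ := by
  apply halve htf
  intro v
  have hu' : ∃ z, ρ u⁻¹ v - v = (2 : ℤ) • z := by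
    obtain ⟨w, hw⟩ := hu v
    refine ⟨-ρ u⁻¹ w, ?_⟩
    rw [smul_neg, ← map_zsmul, ← hw, map_sub, ← rho_mul, inv_mul_cancel, rho_one]
    abel
  obtain ⟨x, hx⟩ := hu'
  obtain ⟨y, hy⟩ := hu (φ v)
  refine ⟨y + ρ u (φ x), ?_⟩
  show ρ u (φ (ρ u⁻¹ v)) - φ v = _
  have e1 : ρ u⁻¹ v = v + (2 : ℤ) • x := by rw [← hx]; abel
  have e2 : ρ u (φ v) = φ v + (2 : ℤ) • y := by rw [← hy]; abel
  rw [e1, map_add, map_add, map_zsmul, map_zsmul, e2, smul_add]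
  abel

end grp

/-- The elements with three-cycles. -/
def Tg {G V V' Ω : Type} [Group G] [AddCommGroup V] [AddCommGroup V'] (S : Sys G V V' Ω) : Prop :=
  ∀ e1 ∈ S.Rd, ∀ e2 ∈ S.Rd, ∀ e3 ∈ S.Rd, e1 ≠ e2 → e1 ≠ e3 → e2 ≠ e3 → ∃ σ : G, ∀ N : ℕ,
    (∀ v, ∀ x ∈ S.Rb, ∀ y ∈ S.Rb, S.δ (S.ρ (σ ^ 4 ^ N) v) x y = S.δ v x y) ∧
    ∀ v', ∀ x ∈ S.Rd, ∀ y ∈ S.Rd, S.δ' (S.ρ' (σ ^ 4 ^ N) v') x y =
      S.δ' v' (cy e1 e2 e3 x) (cy e1 e2 e3 y)

section main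

variable {G V V' Ω : Type} [Group G] [AddCommGroup V] [AddCommGroup V'] {S : Sys G V V' Ω}
  {A : Subgroup G} (h : Ok S) (h' : Ok S.swap)

include h h' in
/-- The elements in a normal subgroup. -/
theorem th_of (hT : Tg S) (hAn : A.Normal) {N : ℕ} (hN : ∀ g : G, g ^ 4 ^ N ∈ A) : Th S A := by
  have add' : ∀ v w, ∀ x ∈ S.Rd, ∀ y ∈ S.Rd, S.δ' (v + w) x y = S.δ' v x y + S.δ' w x y := h'.add
  have sub' : ∀ v w, ∀ x ∈ S.Rd, ∀ y ∈ S.Rd, S.δ' (v - w) x y = S.δ' v x y + S.δ' w x y :=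
    fun v w x hx y hy => h'.dsub v w hx hy
  have aT : ∀ e1 ∈ S.Rd, ∀ e2 ∈ S.Rd, ∀ e3 ∈ S.Rd, e1 ≠ e2 → e1 ≠ e3 → e2 ≠ e3 → ∃ σ ∈ A,
    (∀ v, ∀ x ∈ S.Rb, ∀ y ∈ S.Rb, S.δ (S.ρ σ v) x y = S.δ v x y) ∧
    ∀ v', ∀ x ∈ S.Rd, ∀ y ∈ S.Rd, S.δ' (S.ρ' σ v') x y =
      S.δ' v' (cy e1 e2 e3 x) (cy e1 e2 e3 y) := by
    intro e1 he1 e2 he2 e3 he3 n12 n13 n23
    obtain ⟨σ, hσ⟩ := hT e1 he1 e2 he2 e3 he3 n12 n13 n23
    exact ⟨_, hN σ, hσ N⟩
  refine ⟨fun β1 hβ1 β2 hβ2 e1 he1 e3 he3 nβ n13 => ?_, aT⟩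
  obtain ⟨e2, he2, n21, n23, -⟩ : ∃ z ∈ S.Rd, z ≠ e1 ∧ z ≠ e3 ∧ z ≠ e3 ∧ z ≠ e3 ∧ z ≠ e3 :=
    h'.five
  obtain ⟨σ, hσ, s1, s2⟩ := aT e3 he3 e2 he2 e1 he1 n23.symm n13.symm n21
  obtain ⟨τ, fwd, -⟩ := h.tyS β1 hβ1 β2 hβ2 e1 he1 e2 he2 nβ n21.symm
  refine ⟨σ * (τ * σ⁻¹ * τ⁻¹), A.mul_mem hσ (hAn.conj_mem _ (A.inv_mem hσ) τ), fun v => ?_⟩
  obtain ⟨v1, hv1⟩ : ∃ v1, v1 = S.ρ τ⁻¹ v := ⟨_, rfl⟩
  obtain ⟨v2, hv2⟩ : ∃ v2, v2 = S.ρ σ⁻¹ v1 := ⟨_, rfl⟩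
  obtain ⟨a1, k1, k2⟩ := fwd v1
  obtain ⟨a2, k3, k4⟩ := fwd v2
  have e1' : S.ρ τ v1 = v := by rw [hv1, ← h.mul, mul_inv_cancel, h.one]
  have e2' : S.ρ σ v2 = v1 := by rw [hv2, ← h.mul, mul_inv_cancel, h.one]
  rw [e1'] at k1
  have e3' : v1 = v - S.q a1 := by rw [← k1]; abel
  have d1 : S.δ v1 β1 β2 = S.δ v β1 β2 := by
    rw [e3', h.dsub _ _ hβ1 hβ2, h.im _ β1 hβ1 β2 hβ2, add_zero]
  have d2 : S.δ v2 β1 β2 = S.δ v β1 β2 := by
    rw [← s1 v2 β1 hβ1 β2 hβ2, e2', d1]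
  refine ⟨S.ρ' σ a2 - a1, ?_, fun x hx y hy => ?_⟩
  · have e4 : S.ρ τ v2 = v2 + S.q a2 := by rw [← k3]; abel
    have e5 : S.ρ (σ * (τ * σ⁻¹ * τ⁻¹)) v = S.ρ σ (S.ρ τ v2) := by
      rw [h.mul, h.mul, h.mul, ← hv1, ← hv2]
    rw [e5, e4, map_add, e2', ← h.qe, map_sub, e3']
    abel
  · rw [sub' _ _ x hx y hy, s2 a2 x hx y hy, k4 _ (cy_mem he3 he2 he1 hx) _ (cy_mem he3 he2 he1 hy),
      k2 x hx y hy, d1, d2]
    have hp : ∀ z, ee e1 (cy e3 e2 e1 z) = ee e2 z := by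
      intro z
      by_cases z3 : z = e3
      · rw [z3, cy_one, ee_ne n21, ee_ne n23.symm]
      by_cases z2 : z = e2
      · rw [z2, cy_two n23.symm, ee_self, ee_self]
      by_cases z1 : z = e1
      · rw [z1, cy_three n13.symm n21, ee_ne n13.symm, ee_ne n21.symm]
      · rw [cy_out z3 z2 z1, ee_ne z1, ee_ne z2]
    have hp' : ∀ z, ee e2 (cy e3 e2 e1 z) = ee e3 z := by
      intro z
      by_cases z3 : z = e3
      · rw [z3, cy_one, ee_self, ee_self]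
      by_cases z2 : z = e2
      · rw [z2, cy_two n23.symm, ee_ne n21.symm, ee_ne n23]
      by_cases z1 : z = e1
      · rw [z1, cy_three n13.symm n21, ee_ne n23.symm, ee_ne n13]
      · rw [cy_out z3 z2 z1, ee_ne z2, ee_ne z3]
    unfold pr
    rw [hp, hp, hp', hp']
    have : ∀ d a b c a' b' c' : ZMod 2, d * (b + c + (b' + c')) + d * (a + b + (a' + b')) =
      d * (a + c + (a' + c')) := by decide
    exact this _ _ _ _ _ _ _

include h h' in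
theorem triv_of (h0 : ∀ v, ∀ x ∈ S.Rb, ∀ y ∈ S.Rb, S.δ v x y = 0) (v : V) : ∃ w, v = (2 : ℤ) • w := by
  obtain ⟨v', hv'⟩ := h.ker v (h0 v)
  have h0' : ∀ x ∈ S.Rd, ∀ y ∈ S.Rd, S.δ' v' x y = 0 := by
    intro x hx y hy
    by_cases hxy : x = y
    · subst hxy
      exact h'.dxx v' hx
    obtain ⟨β1, hβ1, -⟩ := h.six ∅ (by simp)
    obtain ⟨β2, hβ2, n21, -⟩ := h.five (x1 := β1) (x2 := β1) (x3 := β1) (x4 := β1) (x5 := β1)
    obtain ⟨β3, hβ3, n31, n32, -⟩ := h.five (x1 := β1) (x2 := β2) (x3 := β1) (x4 := β1) (x5 := β1)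
    obtain ⟨τ, fwd, -⟩ := h'.tyS x hx y hy β1 hβ1 β2 hβ2 hxy n21.symm
    obtain ⟨w, -, k2⟩ := fwd v'
    have k3 : S.δ w β1 β3 = S.δ' v' x y * pr β1 β2 β1 β3 := k2 β1 hβ1 β3 hβ3
    rw [h0 w β1 hβ1 β3 hβ3, pr_left n21.symm n31 n32, mul_one] at k3
    exact k3.symm
  obtain ⟨w, hw⟩ : ∃ w, S.p w = v' := h'.ker v' h0'
  exact ⟨w, by rw [← hv', ← hw, h.qp]⟩

include h h' in
/-- The additive functions which commute with `A` modulo a power of two. -/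
theorem baseJ (hA : Th S A) (j : ℕ) : ∀ {f : V → V}, (∀ x y, f (x + y) = f x + f y) →
    (∀ g ∈ A, ∀ v, ∃ w, f (S.ρ g v) - S.ρ g (f v) = (2 : ℤ) ^ j • w) →
    ∃ z : ℤ, ∀ v, ∃ w, f v - z • v = (2 : ℤ) ^ j • w := by
  induction j with
  | zero => exact fun {f} _ _ => ⟨0, fun v => ⟨f v - (0 : ℤ) • v, by rw [pow_zero, one_smul]⟩⟩
  | succ j ih =>
    intro f hadd hcom
    have hfC : Ca S A f := ⟨hadd, fun g hg v => by
      obtain ⟨w, hw⟩ := hcom g hg v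
      exact ⟨(2 : ℤ) ^ j • w, by rw [hw, smul_smul, ← pow_succ']⟩⟩
    obtain ⟨z, hz⟩ := base2 h h' hA hfC (triv_of h h')
    choose g hg using hz
    obtain ⟨z', hz'⟩ := ih (f := g) (fun x y => by
      apply eq_of_sub_eq_zero
      apply h.htf
      rw [smul_sub, smul_add, ← hg, ← hg, ← hg, hadd, smul_add]
      abel) (fun a ha v => by
      obtain ⟨w, hw⟩ := hcom a ha v
      refine ⟨w, ?_⟩
      apply eq_of_sub_eq_zero
      apply h.htf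
      have e : (2 : ℤ) • (2 : ℤ) ^ j • w = (2 : ℤ) ^ (j + 1) • w := by
        rw [smul_smul, ← pow_succ']
      rw [smul_sub, smul_sub, ← map_zsmul, ← hg, ← hg, e, ← hw, map_sub, map_zsmul]
      abel)
    refine ⟨z + 2 * z', fun v => ?_⟩
    obtain ⟨w, hw⟩ := hz' v
    refine ⟨w, ?_⟩
    rw [pow_succ', mul_smul, ← hw, smul_sub, ← hg, smul_smul, add_smul]
    abel

variable {U : Type} [AddCommGroup U] {a : G → (U →+ U)} {H : Subgroup G}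
  (a_one : ∀ x, a 1 x = x) (a_mul : ∀ g h x, a (g * h) x = a g (a h x))
  (hmodU : ∀ g x, ∃ y, a g x - x = (2 : ℤ) • y) (hH : H.Normal) (hfin : H.FiniteIndex)

include h h' a_one a_mul hmodU hH hfin in
/-- The values of an equivariant function are scalars modulo two. -/
theorem val_two {f : U → (V →+ V)} (hf : f ∈ Eqv (cc S.ρ) a H) (x : U) :
    ∃ z : ℤ, ∀ v, ∃ w, f x v - z • v = (2 : ℤ) • w := by
  have h8 := val_S8 (ρ := cc S.ρ) (cc_one h.one) (cc_mul h.mul) a_one a_mul (e_htf h.htf)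
    (e_hsep h.hsep) hmodU hH hfin hf x
  have hC : Cs S (f x) := by
    refine ⟨fun y z => map_add _ _ _, fun τ h1 h2 v => ?_⟩
    obtain ⟨y, hy⟩ := h8 τ (cc_mod h.one h.mul h.htf h1)
    refine ⟨-y (S.ρ (τ * τ * (τ * τ)) v), ?_⟩
    have e1 : S.ρ (τ * τ * (τ * τ)) (f x (S.ρ (τ * τ * (τ * τ))⁻¹ (S.ρ (τ * τ * (τ * τ)) v))) -
        f x (S.ρ (τ * τ * (τ * τ)) v) = (8 : ℤ) • y (S.ρ (τ * τ * (τ * τ)) v) :=
      DFunLike.congr_fun hy (S.ρ (τ * τ * (τ * τ)) v)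
    rw [← h.mul _⁻¹, inv_mul_cancel, h.one] at e1
    rw [smul_neg, ← e1]
    abel
  exact scal_two h h' hC

include h h' a_one a_mul hmodU hH hfin in
/-- The squares act trivially on the equivariant functions. -/
theorem fix_all {f : U → (V →+ V)} (hf : f ∈ Eqv (cc S.ρ) a H) (g : G) (x : U) :
    f (a (g * g) x) = cc S.ρ (g * g) (f x) := by
  refine eqv_fix2 (cc_one h.one) (cc_mul h.mul) a_one a_mul (e_htf h.htf) (e_hsep h.hsep) hH hfin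
    (fun f hf x => ?_) hf x
  obtain ⟨x1, hx1⟩ := hmodU g⁻¹ x
  obtain ⟨z, hz⟩ := val_two h h' a_one a_mul hmodU hH hfin hf x
  choose w hw using hz
  have e1 : a g⁻¹ x = x + (2 : ℤ) • x1 := by rw [← hx1]; abel
  apply halve h.htf
  intro v
  refine ⟨S.ρ g (w (S.ρ g⁻¹ v)) + S.ρ g (f x1 (S.ρ g⁻¹ v)) - w v, ?_⟩
  show S.ρ g (f (a g⁻¹ x) (S.ρ g⁻¹ v)) - f x v = _
  have e2 : f (a g⁻¹ x) (S.ρ g⁻¹ v) = f x (S.ρ g⁻¹ v) + (2 : ℤ) • f x1 (S.ρ g⁻¹ v) := by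
    rw [e1, hf.1, eqv_smul hf]
    rfl
  have e3 : ∀ u, f x u = z • u + (2 : ℤ) • w u := fun u => by rw [← hw u]; abel
  have e4 : S.ρ g (S.ρ g⁻¹ v) = v := by rw [← h.mul, mul_inv_cancel, h.one]
  rw [e2, e3, e3 v, map_add, map_add, map_zsmul, map_zsmul, map_zsmul, e4, smul_sub, smul_add]
  abel

include a_mul hmodU in
theorem a_pow (g : G) (n : ℕ) (x : U) : ∃ y, a (g ^ 2 ^ n) x - x = (2 : ℤ) ^ (n + 1) • y := by
  induction n generalizing x with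
  | zero =>
    obtain ⟨y, hy⟩ := hmodU g x
    exact ⟨y, by rw [pow_zero, pow_one, zero_add, pow_one, hy]⟩
  | succ n ih =>
    obtain ⟨y, hy⟩ := ih x
    obtain ⟨z, hz⟩ := ih y
    have e1 : a (g ^ 2 ^ n) x = x + (2 : ℤ) ^ (n + 1) • y := by rw [← hy]; abel
    have e2 : a (g ^ 2 ^ n) y = y + (2 : ℤ) ^ (n + 1) • z := by rw [← hz]; abel
    refine ⟨y + (2 : ℤ) ^ n • z, ?_⟩
    have e3 : g ^ 2 ^ (n + 1) = g ^ 2 ^ n * g ^ 2 ^ n := by
      rw [← pow_add, pow_succ, mul_two]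
    rw [e3, a_mul, e1, map_add, map_zsmul, e1, e2, smul_add, smul_add, smul_smul, smul_smul]
    have e4 : (2 : ℤ) ^ (n + 1) * (2 : ℤ) ^ (n + 1) = (2 : ℤ) ^ (n + 1 + 1) * (2 : ℤ) ^ n := by ring
    have e5 : (2 : ℤ) ^ (n + 1 + 1) • y = (2 : ℤ) ^ (n + 1) • y + (2 : ℤ) ^ (n + 1) • y := by
      rw [pow_succ _ (n + 1), mul_comm, mul_smul, two_smul]
    rw [e4, e5]
    abel

include h h' a_one a_mul hmodU hH hfin in
/-- **The values of the equivariant functions are scalars.** -/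
theorem scalU (hT : Tg S) {f : U → (V →+ V)} (hf : f ∈ Eqv (cc S.ρ) a H) (x : U) (j : ℕ) :
    ∃ z : ℤ, ∀ v, ∃ w, f x v - z • v = (2 : ℤ) ^ j • w := by
  have inv_a : ∀ g x, a g⁻¹ (a g x) = x := fun g x => by rw [← a_mul, inv_mul_cancel, a_one]
  have inv_a' : ∀ g x, a g (a g⁻¹ x) = x := fun g x => by rw [← a_mul, mul_inv_cancel, a_one]
  -- the two subgroups
  obtain ⟨A1, hA1⟩ : ∃ A1 : Subgroup G, ∀ g, g ∈ A1 ↔ ∀ x, ∃ y, a g x - x = (2 : ℤ) ^ j • y :=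
    ⟨{ carrier := {g | ∀ x, ∃ y, a g x - x = (2 : ℤ) ^ j • y}
       mul_mem' := by
        intro g g' h1 h2 x
        obtain ⟨y, hy⟩ := h2 x
        obtain ⟨z, hz⟩ := h1 (a g' x)
        exact ⟨z + y, by rw [smul_add, ← hy, ← hz, a_mul]; abel⟩
       one_mem' := fun x => ⟨0, by rw [a_one, sub_self, smul_zero]⟩
       inv_mem' := by
        intro g h1 x
        obtain ⟨y, hy⟩ := h1 (a g⁻¹ x)
        rw [inv_a'] at hy
        exact ⟨-y, by rw [smul_neg, ← hy]; abel⟩ }, fun g => Iff.rfl⟩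
  obtain ⟨A2, hA2⟩ : ∃ A2 : Subgroup G, ∀ g, g ∈ A2 ↔ ∀ f ∈ Eqv (cc S.ρ) a H, ∀ x,
      f (a g x) = cc S.ρ g (f x) :=
    ⟨{ carrier := {g | ∀ f ∈ Eqv (cc S.ρ) a H, ∀ x, f (a g x) = cc S.ρ g (f x)}
       mul_mem' := by
        intro g g' h1 h2 f hf x
        rw [a_mul, h1 f hf, h2 f hf, cc_mul h.mul]
       one_mem' := fun f hf x => by rw [a_one, cc_one h.one]
       inv_mem' := by
        intro g h1 f hf x
        have e := h1 f hf (a g⁻¹ x)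
        rw [inv_a'] at e
        rw [e, ← cc_mul h.mul, inv_mul_cancel, cc_one h.one] }, fun g => Iff.rfl⟩
  have n1 : A1.Normal := ⟨fun g hg t => by
    rw [hA1] at hg ⊢
    intro x
    obtain ⟨y, hy⟩ := hg (a t⁻¹ x)
    refine ⟨a t y, ?_⟩
    rw [← map_zsmul, ← hy, map_sub, inv_a', a_mul, a_mul]⟩
  have n2 : A2.Normal := ⟨fun g hg t => by
    rw [hA2] at hg ⊢
    intro f hf x
    have hf' := eqv_conj (ρ := cc S.ρ) (cc_mul h.mul) a_one a_mul hH hf t⁻¹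
    have e := hg _ hf' (a t⁻¹ x)
    have e1 : cc S.ρ t⁻¹ (f (a t⁻¹⁻¹ (a g (a t⁻¹ x)))) =
        cc S.ρ g (cc S.ρ t⁻¹ (f (a t⁻¹⁻¹ (a t⁻¹ x)))) := e
    rw [inv_inv, inv_a'] at e1
    have e2 : f (a (t * g * t⁻¹) x) = cc S.ρ t (cc S.ρ t⁻¹ (f (a t (a g (a t⁻¹ x))))) := by
      rw [← cc_mul h.mul, mul_inv_cancel, cc_one h.one, a_mul, a_mul]
    rw [e2, e1, cc_mul h.mul, cc_mul h.mul]⟩
  have n3 : (A1 ⊓ A2).Normal := Subgroup.normal_inf_normal _ _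
  have hpow : ∀ g : G, g ^ 4 ^ (j + 1) ∈ A1 ⊓ A2 := by
    intro g
    refine Subgroup.mem_inf.2 ⟨?_, ?_⟩
    · rw [hA1]
      intro x
      have e : (4 : ℕ) ^ (j + 1) = 2 ^ (2 * (j + 1)) := by
        rw [pow_mul]
        norm_num
      rw [e]
      obtain ⟨y, hy⟩ := a_pow a_mul hmodU g (2 * (j + 1)) x
      refine ⟨(2 : ℤ) ^ (j + 3) • y, ?_⟩
      rw [hy, smul_smul, ← pow_add]
      congr 2
      omega
    · have e : g ^ 4 ^ (j + 1) = (g * g) ^ (2 * 4 ^ j) := by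
        rw [← pow_two, ← pow_mul]
        congr 1
        rw [pow_succ]
        ring
      rw [e]
      apply Subgroup.pow_mem
      rw [hA2]
      exact fun f hf x => fix_all h h' a_one a_mul hmodU hH hfin hf g x
  have hA := th_of h h' hT n3 hpow
  refine baseJ h h' hA j (f := fun v => f x v) (fun y z => map_add _ _ _) (fun g hg v => ?_)
  rw [Subgroup.mem_inf, hA1, hA2] at hg
  obtain ⟨y, hy⟩ := hg.1 x
  have e1 : a g x = x + (2 : ℤ) ^ j • y := by rw [← hy]; abel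
  have e2 := DFunLike.congr_fun (hg.2 f hf x) (S.ρ g v)
  rw [e1, hf.1, eqv_smul hf, cc_apply, ← h.mul, inv_mul_cancel, h.one] at e2
  refine ⟨-(f y (S.ρ g v)), ?_⟩
  have e3 : f x (S.ρ g v) + (2 : ℤ) ^ j • f y (S.ρ g v) = S.ρ g (f x v) := e2
  rw [smul_neg, ← e3]
  abel

end main

end Pool.Agent.K9h16.ET
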