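import Pool.Agent.K9h16.ET.Inst
import Pool.Agent.K9h16.ET.Twi
import Pool.Agent.K9h16.MT.Glue

/-!
The equivariant homomorphisms into the endomorphisms of the group of the classes.
-/

set_option autoImplicit false
set_option linter.all false

open Polynomial IsDedekindDomain WeierstrassCurve WeierstrassCurve.Affine
open scoped Classical Pointwise

namespace Pool.Agent.K9h16.ET

open Pool.Agent.TH115.GD Pool.Agent.K9h16.PT Pool.Agent.K9h16.QT Pool.Agent.K9h16.MT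
  Pool.Agent.R939.EI

section cyc

variable {k k' : Type} [Field k] [Field k'] [Algebra k k']

/-- An automorphism which acts on the roots as a cycle of length three. -/
structure Cyc (P Q : k[X]) (e1 e2 e3 : k') (s : k' ≃ₐ[k] k') : Prop where
  c1 : s e1 = e3
  c2 : s e3 = e2
  c3 : s e2 = e1
  out : ∀ θ : k', aeval θ P = 0 → θ ≠ e1 → θ ≠ e2 → θ ≠ e3 → s θ = θ
  fx : ∀ θ : k', aeval θ Q = 0 → s θ = θ

theorem Cyc.four {P Q : k[X]} {e1 e2 e3 : k'} {s : k' ≃ₐ[k] k'} (h : Cyc P Q e1 e2 e3 s) :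
    Cyc P Q e1 e2 e3 (s ^ 4) := by
  have e : ∀ x, (s ^ 4) x = s (s (s (s x))) := fun x => rfl
  refine ⟨?_, ?_, ?_, fun θ hθ n1 n2 n3 => ?_, fun θ hθ => ?_⟩
  · rw [e, h.c1, h.c2, h.c3, h.c1]
  · rw [e, h.c2, h.c3, h.c1, h.c2]
  · rw [e, h.c3, h.c1, h.c2, h.c3]
  · rw [e, h.out θ hθ n1 n2 n3, h.out θ hθ n1 n2 n3, h.out θ hθ n1 n2 n3, h.out θ hθ n1 n2 n3]
  · rw [e, h.fx θ hθ, h.fx θ hθ, h.fx θ hθ, h.fx θ hθ]

theorem Cyc.pow {P Q : k[X]} {e1 e2 e3 : k'} {s : k' ≃ₐ[k] k'} (h : Cyc P Q e1 e2 e3 s) (N : ℕ) :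
    Cyc P Q e1 e2 e3 (s ^ 4 ^ N) := by
  induction N with
  | zero => rw [pow_zero, pow_one]; exact h
  | succ N ih => rw [pow_succ, pow_mul]; exact ih.four

theorem Cyc.symm_eq {P Q : k[X]} {e1 e2 e3 : k'} {s : k' ≃ₐ[k] k'} (h : Cyc P Q e1 e2 e3 s)
    (n12 : e1 ≠ e2) (n13 : e1 ≠ e3) (n23 : e2 ≠ e3) {x : k'} (hx : aeval x P = 0) :
    s.symm x = cy e1 e2 e3 x := by
  rw [AlgEquiv.symm_apply_eq]
  by_cases x1 : x = e1
  · rw [x1, cy_one, h.c3]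
  by_cases x2 : x = e2
  · rw [x2, cy_two n12, h.c2]
  by_cases x3 : x = e3
  · rw [x3, cy_three n13 n23, h.c1]
  · rw [cy_out x1 x2 x3, h.out x hx x1 x2 x3]

theorem exists_cyc {P Q : k[X]} (h : SwF k' P Q) {e1 e2 e3 : k'} (h1 : aeval e1 P = 0)
    (h2 : aeval e2 P = 0) (h3 : aeval e3 P = 0) (n12 : e1 ≠ e2) (n13 : e1 ≠ e3) (n23 : e2 ≠ e3) :
    ∃ s : k' ≃ₐ[k] k', Cyc P Q e1 e2 e3 s := by
  obtain ⟨s1, a1, a2, a3, a4⟩ := h e1 e2 h1 h2 n12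
  obtain ⟨s2, b1, b2, b3, b4⟩ := h e1 e3 h1 h3 n13
  have e : ∀ x, (s1 * s2) x = s1 (s2 x) := fun x => rfl
  refine ⟨s1 * s2, ?_, ?_, ?_, fun θ hθ m1 m2 m3 => ?_, fun θ hθ => ?_⟩
  · rw [e, b1, a3 e3 h3 n13.symm n23.symm]
  · rw [e, b2, a1]
  · rw [e, b3 e2 h2 n12.symm n23, a2]
  · rw [e, b3 θ hθ m1 m3, a3 θ hθ m1 m2]
  · rw [e, b4 θ hθ, a4 θ hθ]

end cyc

section tow

variable {k k' K F : Type} [Field k] [Field k'] [Algebra k k'] [Field K] [Algebra k[X] K]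
    [Field F] [Algebra k'[X] F] [IsFractionRing k'[X] F] [Algebra K F]
    (hT : IsTower k k' K F) {a b : k[X]} (hS : Sd a b)
  (hN : Preserves K F (Sep F)) {H : Subgroup (Sep F ≃ₐ[K] Sep F)} (hH : H.Normal)

theorem lifts_pow {s : k' ≃ₐ[k] k'} {τ : Sep F ≃ₐ[K] Sep F} (h : Lifts s τ) (n : ℕ) :
    Lifts (s ^ n) (τ ^ n) := by
  induction n with
  | zero => rw [pow_zero, pow_zero]; exact lifts_one
  | succ n ih => rw [pow_succ, pow_succ]; exact ih.mul h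

include hT hS in
theorem lift_side {s : k' ≃ₐ[k] k'} {τ : Sep F ≃ₐ[K] Sep F}
    (hτ : Lifts s τ) (v : UU k' (Wc K a b) H ⧸ NN k' (Wc K a b) H) {x y : k'}
    (hx : aeval x b = 0) (hy : aeval y b = 0) :
    dl (rho hT hN hH τ v) x y = dl v (s.symm x) (s.symm y) := by
  obtain ⟨φ, hφ⟩ := pq_ex hT hS v
  have h3 : PQ (rho hT hN hH τ v) (fun θ => φ (s.symm θ)) := by
    obtain ⟨c, rfl, hcf⟩ := hφ
    refine ⟨TU hT hN hH τ c, (rho_mk hT hN hH τ c).symm, ?_⟩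
    exact pf_TA hN hcf hτ
  rw [dl_eq hT hS h3 hx hy, dl_eq hT hS hφ (root_map s.symm hx) (root_map s.symm hy)]

end tow

section main

variable {k k' K F : Type} [Field k] [Field k'] [Algebra k k'] [Field K] [Algebra k[X] K]
    [Field F] [Algebra k'[X] F] [IsFractionRing k'[X] F] [Algebra K F]
    (hT : IsTower k k' K F) {a b : k[X]} (hS : Sd a b)
  (hN : Preserves K F (Sep F)) {H : Subgroup (Sep F ≃ₐ[K] Sep F)} (hH : H.Normal)
  {U : Type} [AddCommGroup U] {ac : (Sep F ≃ₐ[K] Sep F) → (U →+ U)}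
  {H0 : Subgroup (Sep F ≃ₐ[K] Sep F)} (hH0 : H0.Normal) (hfin : H0.FiniteIndex)
  (a_one : ∀ x, ac 1 x = x) (a_mul : ∀ g h x, ac (g * h) x = ac g (ac h x))
  (hmodU : ∀ g x, ∃ y, ac g x - x = (2 : ℤ) • y)

include hT hS hN hH hH0 hfin a_one a_mul hmodU in
/-- **The values are scalars.** -/
theorem scal_tow (hsw : SwF k' b (a ^ 2 - 4 * b)) (hsw' : SwF k' (a ^ 2 - 4 * b) b)
    (hpure : PureG k' b (a ^ 2 - 4 * b)) (h6 : 6 ≤ b.natDegree)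
    (h6' : 6 ≤ (a ^ 2 - 4 * b).natDegree)
    {f : U → ((UU k' (Wc K a b) H ⧸ NN k' (Wc K a b) H) →+ (UU k' (Wc K a b) H ⧸ NN k' (Wc K a b) H))}
    (hf : f ∈ Eqv (cc (rho hT hN hH)) ac H0) (x : U) (j : ℕ) :
    ∃ z : ℤ, ∀ v, ∃ w, f x v - z • v = (2 : ℤ) ^ j • w := by
  haveI := hT.sep
  haveI := hT.fracK
  haveI : IsSepClosed k' := IsSepClosure.sep_closed k
  haveI : NeZero (2 : K) := ⟨tt hS.h2⟩
  have h2' : (2 : k') ≠ 0 := two_k' hS.h2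
  have hS' := hS.dual
  have D1 := dat1 (K := K) hS
  have D2 := dat2 (K := K) hS
  obtain ⟨α, γ, hR⟩ := exists_rts hT hS
  obtain ⟨α', γ', hR'⟩ := exists_rts hT hS'
  have hrd : ∀ θ : k', aeval θ b = 0 ↔ aeval θ ((-2 * a) ^ 2 - 4 * (a ^ 2 - 4 * b)) = 0 :=
    fun θ => (root_dual hS.h2).symm
  have ok1 := ok_side hT hN (H := H) hH D1 D2 hS hS' (one_mul 2) hS.cop (fun θ => Iff.rfl) hrd hR
    hR' (fun s => lift_fix hT hS hR hR' s) hsw.swG hpure h6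
  have ok2 := ok_side hT hN (H := H) hH D2 D1 hS' hS (mul_one 2) hS.cop.symm hrd (fun θ => Iff.rfl)
    hR' hR (fun s => by
      obtain ⟨τ, h1, h2, h3⟩ := lift_fix hT hS hR hR' s
      exact ⟨τ, h1, h3, h2⟩) hsw'.swG (hpure.symm h2' hS.cop) h6'
  refine scalU ok1 ok2 a_one a_mul hmodU hH0 hfin ?_ hf x j
  intro e1 he1 e2 he2 e3 he3 n12 n13 n23
  obtain ⟨s, hs⟩ := exists_cyc hsw' he1 he2 he3 n12 n13 n23
  obtain ⟨σ, hσ⟩ := exists_lift (K := K) (F := F) hT s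
  refine ⟨σ, fun N => ⟨fun v x hx y hy => ?_, fun v' x hx y hy => ?_⟩⟩
  · have hc := hs.pow N
    have fx : ∀ z : k', aeval z b = 0 → (s ^ 4 ^ N).symm z = z := fun z hz => by
      rw [AlgEquiv.symm_apply_eq, hc.fx z hz]
    show dl (rho hT hN hH (σ ^ 4 ^ N) v) x y = dl v x y
    rw [lift_side hT hS hN hH (lifts_pow hσ _) v hx hy, fx x hx, fx y hy]
  · have hc := hs.pow N
    show dl (rho hT hN hH (σ ^ 4 ^ N) v') x y = dl v' (cy e1 e2 e3 x) (cy e1 e2 e3 y)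
    rw [lift_side hT hS' hN hH (lifts_pow hσ _) v' hx hy, hc.symm_eq n12 n13 n23 hx,
      hc.symm_eq n12 n13 n23 hy]

end main

end Pool.Agent.K9h16.ET
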