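import Pool.Agent.K9h16.ET.Fin

/-!
The additive functions which commute, modulo a power of two, with a group of elements which contains
three-cycles and elements with a single minor.
-/

set_option autoImplicit false
set_option linter.all false

open scoped Classical

namespace Pool.Agent.K9h16.ET

open Pool.Agent.K9h16.PT Pool.Agent.K9h16.QT Pool.Agent.K9h16.MT

/-- A cycle of length three. -/
noncomputable def cy {Ω : Type} (e1 e2 e3 x : Ω) : Ω :=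
  if x = e1 then e2 else if x = e2 then e3 else if x = e3 then e1 else x

section cyc

variable {Ω : Type} {e1 e2 e3 x : Ω}

theorem cy_one : cy e1 e2 e3 e1 = e2 := by rw [cy, if_pos rfl]

theorem cy_two (h : e1 ≠ e2) : cy e1 e2 e3 e2 = e3 := by rw [cy, if_neg h.symm, if_pos rfl]

theorem cy_three (h : e1 ≠ e3) (h' : e2 ≠ e3) : cy e1 e2 e3 e3 = e1 := by
  rw [cy, if_neg h.symm, if_neg h'.symm, if_pos rfl]

theorem cy_out (h1 : x ≠ e1) (h2 : x ≠ e2) (h3 : x ≠ e3) : cy e1 e2 e3 x = x := by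
  rw [cy, if_neg h1, if_neg h2, if_neg h3]

theorem cy_mem {R : Set Ω} (h1 : e1 ∈ R) (h2 : e2 ∈ R) (h3 : e3 ∈ R) (hx : x ∈ R) :
    cy e1 e2 e3 x ∈ R := by
  unfold cy
  split_ifs <;> assumption

end cyc

/-- The elements of the group `A`. -/
structure Th {G V V' Ω : Type} [Group G] [AddCommGroup V] [AddCommGroup V'] (S : Sys G V V' Ω)
    (A : Subgroup G) : Prop where
  aS : ∀ β1 ∈ S.Rb, ∀ β2 ∈ S.Rb, ∀ e1 ∈ S.Rd, ∀ e2 ∈ S.Rd, β1 ≠ β2 → e1 ≠ e2 → ∃ τ ∈ A,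
    ∀ v, ∃ v', S.ρ τ v - v = S.q v' ∧ ∀ x ∈ S.Rd, ∀ y ∈ S.Rd,
      S.δ' v' x y = S.δ v β1 β2 * pr e1 e2 x y
  aT : ∀ e1 ∈ S.Rd, ∀ e2 ∈ S.Rd, ∀ e3 ∈ S.Rd, e1 ≠ e2 → e1 ≠ e3 → e2 ≠ e3 → ∃ σ ∈ A,
    (∀ v, ∀ x ∈ S.Rb, ∀ y ∈ S.Rb, S.δ (S.ρ σ v) x y = S.δ v x y) ∧
    ∀ v', ∀ x ∈ S.Rd, ∀ y ∈ S.Rd, S.δ' (S.ρ' σ v') x y =
      S.δ' v' (cy e1 e2 e3 x) (cy e1 e2 e3 y)

/-- The additive functions which commute with `A` modulo two. -/
structure Ca {G V V' Ω : Type} [Group G] [AddCommGroup V] [AddCommGroup V'] (S : Sys G V V' Ω)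
    (A : Subgroup G) (f : V → V) : Prop where
  add : ∀ x y, f (x + y) = f x + f y
  com : ∀ g ∈ A, ∀ v, ∃ w, f (S.ρ g v) - S.ρ g (f v) = (2 : ℤ) • w

section main

variable {G V V' Ω : Type} [Group G] [AddCommGroup V] [AddCommGroup V'] {S : Sys G V V' Ω}
  {A : Subgroup G}

theorem Ca.smul {f : V → V} (hf : Ca S A f) (n : ℤ) (x : V) : f (n • x) = n • f x := by
  have h0 : f 0 = 0 := by
    have h := hf.add 0 0
    rw [add_zero] at h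
    exact left_eq_add.1 h
  let φ : V →+ V := { toFun := f, map_zero' := h0, map_add' := hf.add }
  exact map_zsmul φ n x

theorem Ca.sub {f g : V → V} (hf : Ca S A f) (hg : Ca S A g) : Ca S A (fun v => f v - g v) := by
  refine ⟨fun x y => ?_, fun τ hτ v => ?_⟩
  · show f (x + y) - g (x + y) = _
    rw [hf.add, hg.add]
    abel
  · obtain ⟨w, hw⟩ := hf.com τ hτ v
    obtain ⟨w', hw'⟩ := hg.com τ hτ v
    refine ⟨w - w', ?_⟩
    rw [smul_sub, ← hw, ← hw', map_sub]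
    abel

theorem Ca.id : Ca S A (fun v => v) :=
  ⟨fun _ _ => rfl, fun τ _ v => ⟨0, by rw [sub_self, smul_zero]⟩⟩

variable (h : Ok S) (h' : Ok S.swap) (hA : Th S A)

include h h' in
theorem three_d : ∃ e1 ∈ S.Rd, ∃ e2 ∈ S.Rd, ∃ e3 ∈ S.Rd, e1 ≠ e2 ∧ e1 ≠ e3 ∧ e2 ≠ e3 := by
  have five' : ∀ x1 x2 x3 x4 x5 : Ω, ∃ x ∈ S.Rd, x ≠ x1 ∧ x ≠ x2 ∧ x ≠ x3 ∧ x ≠ x4 ∧ x ≠ x5 :=
    fun x1 x2 x3 x4 x5 => h'.five
  obtain ⟨β, hβ, -⟩ := h.six ∅ (by simp)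
  obtain ⟨e1, he1, -⟩ := five' β β β β β
  obtain ⟨e2, he2, m21, -⟩ := five' e1 e1 e1 e1 e1
  obtain ⟨e3, he3, m31, m32, -⟩ := five' e1 e2 e2 e2 e2
  exact ⟨e1, he1, e2, he2, e3, he3, m21.symm, m31.symm, m32.symm⟩

include h h' hA in
theorem b1 {f : V → V} (hf : Ca S A f) (x' : V') :
    ∀ x ∈ S.Rb, ∀ y ∈ S.Rb, S.δ (f (S.q x')) x y = 0 := by
  intro x hx y hy
  by_cases hxy : x = y
  · subst hxy
    exact h.dxx _ hx
  obtain ⟨e1, he1, e2, he2, e3, he3, n12, n13, n23⟩ := three_d h h'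
  obtain ⟨τ, hτ, fwd⟩ := hA.aS x hx y hy e1 he1 e2 he2 hxy n12
  obtain ⟨a, k1, k2⟩ := fwd (S.q x')
  obtain ⟨w, hw⟩ : ∃ w, S.p w = a := h'.ker a (fun s hs t ht => by
    show S.δ' a s t = 0
    rw [k2 s hs t ht, h.im _ x hx y hy, zero_mul])
  obtain ⟨b, k3, k4⟩ := fwd (f (S.q x'))
  obtain ⟨w2, hw2⟩ := hf.com τ hτ (S.q x')
  have e4 : S.ρ τ (S.q x') = S.q x' + (2 : ℤ) • w := by
    rw [← h.qp, hw, ← k1]
    abel
  have e5 : S.ρ τ (f (S.q x')) = f (S.q x') + S.q b := by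
    rw [← k3]
    abel
  rw [e4, e5, hf.add, hf.smul] at hw2
  have e6 : b = S.p (f w - w2) := by
    apply q_inj h'
    rw [h.qp, smul_sub, ← hw2]
    abel
  have e7 := k4 e1 he1 e3 he3
  have e8 : S.δ' (S.p (f w - w2)) e1 e3 = 0 := h'.im _ e1 he1 e3 he3
  rw [e6, e8, pr_left n12 n13.symm n23.symm, mul_one] at e7
  exact e7.symm

include h h' hA in
theorem bdual {f : V → V} (hf : Ca S A f) : ∃ f' : V' → V', (∀ x y, f' (x + y) = f' x + f' y) ∧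
    (∀ x', S.q (f' x') = f (S.q x')) ∧
    (∀ g ∈ A, ∀ x', ∃ w, f' (S.ρ' g x') - S.ρ' g (f' x') = S.p w) ∧
    ∀ w, f' (S.p w) = S.p (f w) := by
  have h1 : ∀ x', ∃ y', S.q y' = f (S.q x') := fun x' => h.ker _ (b1 h h' hA hf x')
  choose f' hf' using h1
  refine ⟨f', fun x y => ?_, hf', fun g hg x' => ?_, fun w => ?_⟩
  · apply q_inj h'
    rw [map_add, hf', hf', hf', map_add, hf.add]
  · obtain ⟨w, hw⟩ := hf.com g hg (S.q x')
    refine ⟨w, ?_⟩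
    apply q_inj h'
    rw [map_sub, hf', h.qe, h.qe, hf', hw, h.qp]
  · apply q_inj h'
    rw [hf', h.qp, h.qp, hf.smul]

include h h' hA in
theorem b3 {f : V → V} (hf : Ca S A f) {f' : V' → V'} (hff : ∀ x', S.q (f' x') = f (S.q x')) (v : V)
    {x y e1 e2 : Ω} (hx : x ∈ S.Rb) (hy : y ∈ S.Rb) (he1 : e1 ∈ S.Rd) (he2 : e2 ∈ S.Rd)
    (hxy : x ≠ y) (hee : e1 ≠ e2) : ∃ a,
      (∀ s ∈ S.Rd, ∀ t ∈ S.Rd, S.δ' a s t = S.δ v x y * pr e1 e2 s t) ∧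
      ∀ s ∈ S.Rd, ∀ t ∈ S.Rd, S.δ' (f' a) s t = S.δ (f v) x y * pr e1 e2 s t := by
  obtain ⟨τ, hτ, fwd⟩ := hA.aS x hx y hy e1 he1 e2 he2 hxy hee
  obtain ⟨a, k1, k2⟩ := fwd v
  obtain ⟨b, k3, k4⟩ := fwd (f v)
  obtain ⟨w, hw⟩ := hf.com τ hτ v
  have e4 : S.ρ τ v = v + S.q a := by rw [← k1]; abel
  have e5 : S.ρ τ (f v) = f v + S.q b := by rw [← k3]; abel
  rw [e4, e5, hf.add] at hw
  have e6 : f' a = b + S.p w := by
    apply q_inj h'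
    rw [hff, map_add, h.qp, ← hw]
    abel
  refine ⟨a, k2, fun s hs t ht => ?_⟩
  have e7 : S.δ' (b + S.p w) s t = S.δ' b s t + S.δ' (S.p w) s t := h'.add _ _ s hs t ht
  have e8 : S.δ' (S.p w) s t = 0 := h'.im _ s hs t ht
  rw [e6, e7, e8, add_zero, k4 s hs t ht]

include h h' hA in
theorem b5 {f : V → V} (hf : Ca S A f) {f' : V' → V'} (hadd : ∀ x y, f' (x + y) = f' x + f' y)
    (hff : ∀ x', S.q (f' x') = f (S.q x')) (hfp : ∀ w, f' (S.p w) = S.p (f w))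
    {v0 : V} {x0 y0 : Ω} (hx0 : x0 ∈ S.Rb) (hy0 : y0 ∈ S.Rb) (h0 : S.δ v0 x0 y0 = 1) :
    ∃ c : ZMod 2, (∀ v, ∀ x ∈ S.Rb, ∀ y ∈ S.Rb, S.δ (f v) x y = c * S.δ v x y) ∧
      ∀ e1 ∈ S.Rd, ∀ e2 ∈ S.Rd, e1 ≠ e2 → ∃ a,
        (∀ s ∈ S.Rd, ∀ t ∈ S.Rd, S.δ' a s t = pr e1 e2 s t) ∧
        ∀ s ∈ S.Rd, ∀ t ∈ S.Rd, S.δ' (f' a) s t = c * pr e1 e2 s t := by
  have hxy0 : x0 ≠ y0 := by
    rintro rfl
    rw [h.dxx _ hx0] at h0
    exact zero_ne_one h0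
  refine ⟨S.δ (f v0) x0 y0, fun v x hx y hy => ?_, fun e1 he1 e2 he2 hee => ?_⟩
  · by_cases hxy : x = y
    · subst hxy
      rw [h.dxx _ hx, h.dxx _ hx, mul_zero]
    obtain ⟨e1, he1, e2, he2, e3, he3, n12, n13, n23⟩ := three_d h h'
    obtain ⟨a, k1, k2⟩ := b3 h h' hA hf hff v hx hy he1 he2 hxy n12
    obtain ⟨a0, k3, k4⟩ := b3 h h' hA hf hff v0 hx0 hy0 he1 he2 hxy0 n12
    rcases zcases (S.δ v x y) with e | e
    · obtain ⟨w, hw⟩ : ∃ w, S.p w = a := h'.ker a (fun s hs t ht => by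
        show S.δ' a s t = 0
        rw [k1 s hs t ht, e, zero_mul])
      have e5 := k2 e1 he1 e3 he3
      have e8 : S.δ' (S.p (f w)) e1 e3 = 0 := h'.im _ e1 he1 e3 he3
      rw [← hw, hfp, e8, pr_left n12 n13.symm n23.symm, mul_one] at e5
      rw [← e5, e, mul_zero]
    · obtain ⟨w, hw⟩ : ∃ w, S.p w = a - a0 := h'.ker (a - a0) (fun s hs t ht => by
        have e4 : S.δ' (a - a0) s t = S.δ' a s t + S.δ' a0 s t := h'.dsub _ _ hs ht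
        show S.δ' (a - a0) s t = 0
        rw [e4, k1 s hs t ht, k3 s hs t ht, e, h0, zz])
      have e5 := k2 e1 he1 e3 he3
      have e6 : a = a0 + S.p w := by rw [hw]; abel
      have e7 : S.δ' (f' a0 + S.p (f w)) e1 e3 = S.δ' (f' a0) e1 e3 + S.δ' (S.p (f w)) e1 e3 :=
        h'.add _ _ e1 he1 e3 he3
      have e8 : S.δ' (S.p (f w)) e1 e3 = 0 := h'.im _ e1 he1 e3 he3
      rw [e6, hadd, hfp, e7, e8, add_zero, k4 e1 he1 e3 he3, pr_left n12 n13.symm n23.symm, mul_one,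
        mul_one] at e5
      rw [← e5, e, mul_one]
  · obtain ⟨a0, k3, k4⟩ := b3 h h' hA hf hff v0 hx0 hy0 he1 he2 hxy0 hee
    exact ⟨a0, fun s hs t ht => by rw [k3 s hs t ht, h0, one_mul], k4⟩

/-- A function which is invariant under the three-cycles. -/
theorem cyc_zero {R : Set Ω} {ψ : Ω → Ω → ZMod 2}
    (htr : ∀ x ∈ R, ∀ y ∈ R, ∀ z ∈ R, ψ x y + ψ y z = ψ x z)
    (hth : ∀ x ∈ R, ∀ y ∈ R, ∃ z ∈ R, z ≠ x ∧ z ≠ y)
    (hinv : ∀ e1 ∈ R, ∀ e2 ∈ R, ∀ e3 ∈ R, e1 ≠ e2 → e1 ≠ e3 → e2 ≠ e3 → ∀ x ∈ R, ∀ y ∈ R,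
      ψ x y = ψ (cy e1 e2 e3 x) (cy e1 e2 e3 y)) : ∀ x ∈ R, ∀ y ∈ R, ψ x y = 0 := by
  intro x hx y hy
  have h0 : ψ x x = 0 := add_eq_left.1 (htr x hx x hx x hx)
  by_cases hxy : x = y
  · subst hxy
    exact h0
  obtain ⟨z, hz, zx, zy⟩ := hth x hx y hy
  have i1 := hinv x hx y hy z hz hxy zx.symm zy.symm x hx y hy
  have i2 := hinv x hx y hy z hz hxy zx.symm zy.symm y hy z hz
  rw [cy_one, cy_two hxy] at i1
  rw [cy_two hxy, cy_three zx.symm zy.symm] at i2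
  have t1 := htr x hx y hy z hz
  have t2 := htr x hx z hz x hx
  rw [h0, ← t1, ← i2, ← i1] at t2
  revert t2
  generalize ψ x y = a
  revert a
  decide

include h h' hA in
theorem b6 {f : V → V} (hf : Ca S A f) {f' : V' → V'} (hadd : ∀ x y, f' (x + y) = f' x + f' y)
    (hfA : ∀ g ∈ A, ∀ x', ∃ w, f' (S.ρ' g x') - S.ρ' g (f' x') = S.p w)
    (hfp : ∀ w, f' (S.p w) = S.p (f w)) {c : ZMod 2}
    (hc : ∀ e1 ∈ S.Rd, ∀ e2 ∈ S.Rd, e1 ≠ e2 → ∃ a,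
        (∀ s ∈ S.Rd, ∀ t ∈ S.Rd, S.δ' a s t = pr e1 e2 s t) ∧
        ∀ s ∈ S.Rd, ∀ t ∈ S.Rd, S.δ' (f' a) s t = c * pr e1 e2 s t) (a : V') :
    ∀ s ∈ S.Rd, ∀ t ∈ S.Rd, S.δ' (f' a) s t = c * S.δ' a s t := by
  have add' : ∀ v w, ∀ x ∈ S.Rd, ∀ y ∈ S.Rd, S.δ' (v + w) x y = S.δ' v x y + S.δ' w x y := h'.add
  have sub' : ∀ v w, ∀ x ∈ S.Rd, ∀ y ∈ S.Rd, S.δ' (v - w) x y = S.δ' v x y + S.δ' w x y :=
    fun v w x hx y hy => h'.dsub v w hx hy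
  have tr' : ∀ v, ∀ x ∈ S.Rd, ∀ y ∈ S.Rd, ∀ z ∈ S.Rd, S.δ' v x y + S.δ' v y z = S.δ' v x z := h'.tr
  have im' : ∀ w, ∀ x ∈ S.Rd, ∀ y ∈ S.Rd, S.δ' (S.p w) x y = 0 := h'.im
  have xx' : ∀ v, ∀ x ∈ S.Rd, S.δ' v x x = 0 := fun v x hx => h'.dxx v hx
  have sy' : ∀ v, ∀ x ∈ S.Rd, ∀ y ∈ S.Rd, S.δ' v x y = S.δ' v y x := fun v x hx y hy =>
    h'.dsym v hx hy
  -- the values of zero, one and combinations
  have hz : ∀ (b : ZMod 2) (w : V'), ∃ u : V', (∀ s ∈ S.Rd, ∀ t ∈ S.Rd, S.δ' u s t = b * S.δ' w s t) ∧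
      ∀ s ∈ S.Rd, ∀ t ∈ S.Rd, S.δ' (f' u) s t = b * S.δ' (f' w) s t := by
    intro b w
    rcases zcases b with e | e
    · refine ⟨S.p 0, fun s hs t ht => ?_, fun s hs t ht => ?_⟩
      · rw [im' _ s hs t ht, e, zero_mul]
      · rw [hfp, im' _ s hs t ht, e, zero_mul]
    · exact ⟨w, fun s hs t ht => by rw [e, one_mul], fun s hs t ht => by rw [e, one_mul]⟩
  have key := cyc_zero (R := S.Rd) (ψ := fun s t => S.δ' (f' a) s t + c * S.δ' a s t)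
    (fun x hx y hy z hz => by
      show S.δ' (f' a) x y + c * S.δ' a x y + (S.δ' (f' a) y z + c * S.δ' a y z) = _
      rw [← tr' (f' a) x hx y hy z hz, ← tr' a x hx y hy z hz]
      ring)
    (fun x hx y hy => by
      obtain ⟨z, hz, n1, n2, -⟩ : ∃ z ∈ S.Rd, z ≠ x ∧ z ≠ y ∧ z ≠ y ∧ z ≠ y ∧ z ≠ y := h'.five
      exact ⟨z, hz, n1, n2⟩)
    (fun e1 he1 e2 he2 e3 he3 n12 n13 n23 x hx y hy => by
      obtain ⟨σ, hσ, -, s2⟩ := hA.aT e1 he1 e2 he2 e3 he3 n12 n13 n23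
      obtain ⟨w, hw⟩ := hfA σ hσ a
      obtain ⟨a12, k1, k2⟩ := hc e1 he1 e2 he2 n12
      obtain ⟨a23, k3, k4⟩ := hc e2 he2 e3 he3 n23
      -- the difference
      obtain ⟨e0, he0, m1, m2, m3, -⟩ : ∃ z ∈ S.Rd, z ≠ e1 ∧ z ≠ e2 ∧ z ≠ e3 ∧ z ≠ e3 ∧ z ≠ e3 :=
        h'.five
      obtain ⟨b, hb⟩ : ∃ b, b = S.ρ' σ a - a := ⟨_, rfl⟩
      have cm : ∀ z ∈ S.Rd, cy e1 e2 e3 z ∈ S.Rd := fun z hz => cy_mem he1 he2 he3 hz
      have b0 : ∀ z ∈ S.Rd, S.δ' b z e0 = S.δ' a (cy e1 e2 e3 z) e0 + S.δ' a z e0 := by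
        intro z hz
        rw [hb, sub' _ _ z hz e0 he0, s2 a z hz e0 he0, cy_out m1 m2 m3]
      obtain ⟨α, hα⟩ : ∃ α, α = S.δ' a e2 e0 + S.δ' a e1 e0 := ⟨_, rfl⟩
      obtain ⟨γ, hγ⟩ : ∃ γ, γ = S.δ' a e1 e0 + S.δ' a e3 e0 := ⟨_, rfl⟩
      have bf : ∀ z ∈ S.Rd, S.δ' b z e0 = α * (ee e1 z + ee e2 z) + γ * (ee e2 z + ee e3 z) := by
        intro z hz
        rw [b0 z hz]
        by_cases z1 : z = e1
        · subst z1
          rw [cy_one, ee_self, ee_ne n12, ee_ne n13, hα]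
          ring
        by_cases z2 : z = e2
        · subst z2
          rw [cy_two n12, ee_self, ee_ne z1, ee_ne n23, hα, hγ]
          generalize S.δ' a z e0 = p1
          generalize S.δ' a e1 e0 = p2
          generalize S.δ' a e3 e0 = p3
          revert p1 p2 p3
          decide
        by_cases z3 : z = e3
        · subst z3
          rw [cy_three n13 n23, ee_self, ee_ne z1, ee_ne z2, hγ]
          ring
        · rw [cy_out z1 z2 z3, ee_ne z1, ee_ne z2, ee_ne z3, zz]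
          ring
      have bf' : ∀ s ∈ S.Rd, ∀ t ∈ S.Rd, S.δ' b s t = α * pr e1 e2 s t + γ * pr e2 e3 s t := by
        intro s hs t ht
        rw [← tr' b s hs e0 he0 t ht, sy' b e0 he0 t ht, bf s hs, bf t ht]
        unfold pr
        ring
      obtain ⟨u1, g1, g2⟩ := hz α a12
      obtain ⟨u2, g3, g4⟩ := hz γ a23
      obtain ⟨w2, hw2⟩ : ∃ w2, S.p w2 = b - (u1 + u2) := h'.ker _ (fun s hs t ht => by
        show S.δ' (b - (u1 + u2)) s t = 0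
        rw [sub' _ _ s hs t ht, add' _ _ s hs t ht, bf' s hs t ht, g1 s hs t ht, g3 s hs t ht,
          k1 s hs t ht, k3 s hs t ht, zz])
      have fb : ∀ s ∈ S.Rd, ∀ t ∈ S.Rd, S.δ' (f' b) s t = c * S.δ' b s t := by
        intro s hs t ht
        have e : b = u1 + u2 + S.p w2 := by rw [hw2]; abel
        have e' : f' b = f' u1 + f' u2 + S.p (f w2) := by rw [e, hadd, hadd, hfp]
        rw [e', add' _ _ s hs t ht, add' _ _ s hs t ht, im' _ s hs t ht, g2 s hs t ht,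
          g4 s hs t ht, k2 s hs t ht, k4 s hs t ht, bf' s hs t ht]
        ring
      have e9 : S.ρ' σ a = a + b := by rw [hb]; abel
      have e10 : S.ρ' σ (f' a) = f' a + f' b - S.p w := by
        rw [← hw, e9, hadd]
        abel
      have e11 := s2 (f' a) x hx y hy
      rw [e10, sub' _ _ x hx y hy, add' _ _ x hx y hy, im' _ x hx y hy, fb x hx y hy] at e11
      have e12 := s2 a x hx y hy
      rw [e9, add' _ _ x hx y hy] at e12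
      show S.δ' (f' a) x y + c * S.δ' a x y = S.δ' (f' a) (cy e1 e2 e3 x) (cy e1 e2 e3 y) +
        c * S.δ' a (cy e1 e2 e3 x) (cy e1 e2 e3 y)
      rw [← e11, ← e12]
      have : ∀ c p1 p2 p3 : ZMod 2, p1 + c * p2 = p1 + c * p3 + 0 + c * (p2 + p3) := by decide
      exact this _ _ _ _)
  intro s hs t ht
  have e := key s hs t ht
  have : ∀ a b : ZMod 2, a + b = 0 → a = b := by decide
  exact this _ _ e

include h h' hA in
/-- Both functions zero. -/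
theorem b7 {f : V → V} (hf : Ca S A f) {f' : V' → V'} (hff : ∀ x', S.q (f' x') = f (S.q x'))
    (h0 : ∀ v, ∀ x ∈ S.Rb, ∀ y ∈ S.Rb, S.δ (f v) x y = 0)
    (h0' : ∀ v', ∀ x ∈ S.Rd, ∀ y ∈ S.Rd, S.δ' (f' v') x y = 0) (v : V) :
    ∃ w, f v = (2 : ℤ) • w := by
  have add' : ∀ v w, ∀ x ∈ S.Rd, ∀ y ∈ S.Rd, S.δ' (v + w) x y = S.δ' v x y + S.δ' w x y := h'.add
  have sub' : ∀ v w, ∀ x ∈ S.Rd, ∀ y ∈ S.Rd, S.δ' (v - w) x y = S.δ' v x y + S.δ' w x y :=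
    fun v w x hx y hy => h'.dsub v w hx hy
  have im' : ∀ w, ∀ x ∈ S.Rd, ∀ y ∈ S.Rd, S.δ' (S.p w) x y = 0 := h'.im
  obtain ⟨g, hg⟩ := h.ker (f v) (h0 v)
  have key := cyc_zero (R := S.Rd) (ψ := fun s t => S.δ' g s t) (fun x hx y hy z hz => h'.tr g x hx y hy z hz) (fun x hx y hy => by
      obtain ⟨z, hz, n1, n2, -⟩ : ∃ z ∈ S.Rd, z ≠ x ∧ z ≠ y ∧ z ≠ y ∧ z ≠ y ∧ z ≠ y := h'.five
      exact ⟨z, hz, n1, n2⟩)
    (fun e1 he1 e2 he2 e3 he3 n12 n13 n23 x hx y hy => by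
      obtain ⟨σ, hσ, s1, s2⟩ := hA.aT e1 he1 e2 he2 e3 he3 n12 n13 n23
      obtain ⟨x', hx'⟩ := h.ker (S.ρ σ v - v) (fun s hs t ht => by
        rw [h.dsub _ _ hs ht, s1 v s hs t ht, zz])
      obtain ⟨w, hw⟩ := hf.com σ hσ v
      have e1' : S.ρ σ v = v + S.q x' := by rw [hx']; abel
      rw [e1', hf.add, ← hff, ← hg, ← h.qe] at hw
      have e2' : S.ρ' σ g = g + f' x' - S.p w := by
        apply q_inj h'
        rw [map_sub, map_add, h.qp, ← hw]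
        abel
      have e3' := s2 g x hx y hy
      rw [e2', sub' _ _ x hx y hy, add' _ _ x hx y hy, im' _ x hx y hy, h0' _ x hx y hy, add_zero,
        add_zero] at e3'
      exact e3')
  obtain ⟨w, hw⟩ : ∃ w, S.p w = g := h'.ker g key
  exact ⟨w, by rw [← hg, ← hw, h.qp]⟩

include h h' hA in
/-- The functions are scalars modulo two. -/
theorem base2 {f : V → V} (hf : Ca S A f)
    (htriv : (∀ v, ∀ x ∈ S.Rb, ∀ y ∈ S.Rb, S.δ v x y = 0) → ∀ v : V, ∃ w, v = (2 : ℤ) • w) :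
    ∃ z : ℤ, ∀ v, ∃ w, f v - z • v = (2 : ℤ) • w := by
  by_cases hex : ∃ v, ∃ x ∈ S.Rb, ∃ y ∈ S.Rb, S.δ v x y = 1
  · obtain ⟨v0, x0, hx0, y0, hy0, h0⟩ := hex
    obtain ⟨f', hadd, hff, hfA, hfp⟩ := bdual h h' hA hf
    obtain ⟨c, hc1, hc2⟩ := b5 h h' hA hf hadd hff hfp hx0 hy0 h0
    have hc3 := b6 h h' hA hf hadd hfA hfp hc2
    rcases zcases c with e0 | e1
    · refine ⟨0, fun v => ?_⟩
      obtain ⟨w, hw⟩ := b7 h h' hA hf hff (fun v x hx y hy => by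
        rw [hc1 v x hx y hy, e0, zero_mul]) (fun v x hx y hy => by
        rw [hc3 v x hx y hy, e0, zero_mul]) v
      exact ⟨w, by rw [zero_smul, sub_zero, hw]⟩
    · refine ⟨1, fun v => ?_⟩
      obtain ⟨w, hw⟩ := b7 h h' hA (hf.sub Ca.id) (f' := fun x' => f' x' - x') (fun x' => by
        show S.q (f' x' - x') = f (S.q x') - S.q x'
        rw [map_sub, hff]) (fun v x hx y hy => by
        show S.δ (f v - v) x y = 0
        rw [h.dsub _ _ hx hy, hc1 v x hx y hy, e1, one_mul, zz]) (fun v x hx y hy => by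
        have a1 : S.δ' (f' v - v) x y = S.δ' (f' v) x y + S.δ' v x y := h'.dsub _ _ hx hy
        show S.δ' (f' v - v) x y = 0
        rw [a1, hc3 v x hx y hy, e1, one_mul, zz]) v
      exact ⟨w, by rw [one_smul]; exact hw⟩
  · push Not at hex
    have h0 : ∀ v, ∀ x ∈ S.Rb, ∀ y ∈ S.Rb, S.δ v x y = 0 := fun v x hx y hy =>
      (zero_or h v x y).resolve_right (hex v x hx y hy)
    exact ⟨0, fun v => by
      obtain ⟨w, hw⟩ := htriv h0 (f v)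
      exact ⟨w, by rw [zero_smul, sub_zero, ← hw]⟩⟩

end main

end Pool.Agent.K9h16.ET
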